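import Pool.Agent.V11313.RP.Cap3

set_option autoImplicit false

/-! The Fourier transform of a general bump on the sphere. -/

namespace Pool.Agent.V11313.RP

open MeasureTheory Set Metric Complex
open Pool.Agent.H789R2.FR
open Pool.Agent.V1172.GC
open scoped ENNReal NNReal RealInnerProductSpace

/-- the envelopes: `f μ` with `f ≥ 0` small away from `v` -/
structure Env (B : ℕ) (D k : ℝ) (v : E 3) (f : E 3 → ℝ≥0) (μ : E 3 → ℂ) : Prop where
  mf : Measurable f
  mm : Measurable μ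
  bm : ∀ x, ‖μ x‖ ≤ 1
  bf : ∀ x, (f x : ℝ) ≤ D
  sf : ∀ x, ‖x‖ = 1 → (f x : ℝ) ≤ D / (1 + k * (1 - ⟪v, x⟫)) ^ 2
  af : Md B f
  vm : Vr B μ

/-- the product -/
noncomputable def ev (f : E 3 → ℝ≥0) (μ : E 3 → ℂ) (x : E 3) : ℂ := ((f x : ℝ≥0) : ℂ) * μ x

variable {B : ℕ} {D k : ℝ} {v : E 3} {f : E 3 → ℝ≥0} {μ : E 3 → ℂ}

lemma ev_meas (h : Env B D k v f μ) : Measurable (ev f μ) :=
  (Complex.measurable_ofReal.comp (measurable_coe_nnreal_real.comp h.mf)).mul h.mm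

lemma ev_norm (h : Env B D k v f μ) (x : E 3) : ‖ev f μ x‖ ≤ f x := by
  rw [ev, norm_mul, Complex.norm_real, Real.norm_of_nonneg (NNReal.coe_nonneg _)]
  exact mul_le_of_le_one_right (NNReal.coe_nonneg _) (h.bm x)

lemma Env.D0 (h : Env B D k v f μ) : 0 ≤ D := (NNReal.coe_nonneg _).trans (h.bf 0)

/-- polar coordinates about the direction of the frequency -/
lemma env_bound (h : Env B D k v f μ) (hk : 0 ≤ k) (ξ : E 3) (hv : ‖v‖ = 1) (hξ : ξ ≠ 0) :
    ∃ w : E 3, ‖w‖ = 1 ∧ w 2 * ‖ξ‖ = ⟪v, ξ⟫ ∧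
      ‖T (ev f μ) ξ‖ₑ ≤ ∫⁻ φ in Ioo (-Real.pi) Real.pi, ENNReal.ofReal (3 / 2 * Real.pi * B *
        (D / (1 + k * (1 - √((w 2) ^ 2 + (w 0 * Real.cos φ + w 1 * Real.sin φ) ^ 2))) ^ 2) /
          ‖ξ‖) := by
  have hD := h.D0
  set r : ℝ := ‖ξ‖ with hr
  have hr0 : 0 < r := norm_pos_iff.2 hξ
  set ω : E 3 := r⁻¹ • ξ with hω
  have hωn : ‖ω‖ = 1 := by
    rw [hω, norm_smul, norm_inv, Real.norm_of_nonneg hr0.le, ← hr, inv_mul_cancel₀ hr0.ne']
  have hξω : ξ = r • ω := by rw [hω, smul_smul, mul_inv_cancel₀ hr0.ne', one_smul]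
  set L : E 3 ≃ₗᵢ[ℝ] E 3 := (ℝ ∙ (e3 - ω))ᗮ.reflection with hL
  have hLe : L e3 = ω := Submodule.reflection_sub (by rw [norm_e3, hωn])
  have hmp := sg_inv L
  have hemb : MeasurableEmbedding L := L.toHomeomorph.measurableEmbedding
  set w : E 3 := L.symm v with hw
  have hwn : ‖w‖ = 1 := by rw [hw, L.symm.norm_map, hv]
  have hwi : ∀ x, ⟪v, L x⟫ = ⟪w, x⟫ := fun x => by
    rw [hw, ← L.inner_map_map (L.symm v) x, L.apply_symm_apply]
  refine ⟨w, hwn, ?_, ?_⟩
  · have h1 : ⟪w, e3⟫ = w 2 := by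
      simp [e3, Fin.sum_univ_three, PiLp.inner_apply]
    rw [← h1, ← hwi, hLe, hω, real_inner_smul_right]
    field_simp
  set F : E 3 → ℂ := fun x => cexp (-((r * ⟪e3, x⟫ : ℝ) : ℂ) * I) * ev f μ (L x) with hF
  have hexm : Measurable fun w : E 3 => cexp (-((r * ⟪e3, w⟫ : ℝ) : ℂ) * I) := by
    have : Continuous fun w : E 3 => cexp (-((r * ⟪e3, w⟫ : ℝ) : ℂ) * I) := by fun_prop
    exact this.measurable
  have hFm : Measurable F := hexm.mul ((ev_meas h).comp L.continuous.measurable)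
  have hexn : ∀ t : ℝ, ‖cexp (-((t : ℝ) : ℂ) * I)‖ = 1 := fun t => by
    rw [show -((t : ℝ) : ℂ) * I = ((-t : ℝ) : ℂ) * I by push_cast; ring,
      Complex.norm_exp_ofReal_mul_I]
  have hFb : ∀ x, ‖F x‖ ≤ D := fun x => by
    simp only [hF]
    rw [norm_mul, hexn, one_mul]
    exact (ev_norm h _).trans (h.bf _)
  have h1 : T (ev f μ) ξ = ∫ x, F x ∂(sg 3) := by
    unfold T
    rw [← hmp.integral_comp hemb (fun x => cexp (-((⟪ξ, x⟫ : ℝ) : ℂ) * I) * ev f μ x)]
    congr 1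
    ext x
    simp only [hF]
    congr 3
    rw [hξω, ← hLe, real_inner_smul_left, L.inner_map_map]
  rw [h1, arch_int F hFm ⟨D, hFb⟩]
  have hint : Integrable (fun p : ℝ × ℝ => F (pt p.1 p.2))
      ((volume.restrict (Ioo (-1 : ℝ) 1)).prod (volume.restrict (Ioo (-Real.pi) Real.pi))) :=
    Integrable.of_bound (C := D) (hFm.comp measurable_pt).aestronglyMeasurable
      (Filter.Eventually.of_forall fun p => hFb _)
  rw [integral_integral_swap hint]
  refine (enorm_integral_le_lintegral_enorm _).trans (lintegral_mono fun φ => ?_)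
  rw [← ofReal_norm]
  apply ENNReal.ofReal_le_ofReal
  set b : ℝ := w 0 * Real.cos φ + w 1 * Real.sin φ with hb
  set R : ℝ := √((w 2) ^ 2 + b ^ 2) with hR
  have hsum := sum_sq w hwn
  have hR1 : R ≤ 1 := by
    rw [hR]
    apply Real.sqrt_le_one.2
    have h3 : b ^ 2 ≤ w 0 ^ 2 + w 1 ^ 2 := by
      have := Real.sin_sq_add_cos_sq φ
      have h4 : w 0 ^ 2 + w 1 ^ 2 - b ^ 2 = (w 0 * Real.sin φ - w 1 * Real.cos φ) ^ 2 := by
        rw [hb]
        linear_combination (- (w 0 ^ 2) - (w 1) ^ 2) * this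
      nlinarith [sq_nonneg (w 0 * Real.sin φ - w 1 * Real.cos φ)]
    linarith
  have hkR : 0 ≤ k * (1 - R) := mul_nonneg hk (by linarith)
  set lam : ℝ≥0 := Real.toNNReal (D / (1 + k * (1 - R)) ^ 2) with hlam
  have hlamc : (lam : ℝ) = D / (1 + k * (1 - R)) ^ 2 := Real.coe_toNNReal _ (by positivity)
  set u' : E 3 := L (hz φ) with hu'
  have hun : ‖u'‖ = 1 := by rw [hu', L.norm_map, norm_hz]
  have hov : ⟪ω, u'⟫ = 0 := by rw [← hLe, hu', L.inner_map_map, e3_hz]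
  set ψ : ℝ → ℝ≥0 := fun u => if u ∈ Ioo (-1 : ℝ) 1 then f (u • ω + sc u • u') else 0 with hψ
  have hψm : Measurable ψ := by
    refine Measurable.ite measurableSet_Ioo (h.mf.comp ?_) measurable_const
    exact (measurable_id.smul_const ω).add (measurable_sc.smul_const u')
  have hμm : Measurable fun u : ℝ => μ (u • ω + sc u • u') :=
    h.mm.comp ((measurable_id.smul_const ω).add (measurable_sc.smul_const u'))
  have hψle : ∀ u ∈ Ioo (-1 : ℝ) 1, ψ u ≤ lam := by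
    intro u hu
    simp only [hψ]
    rw [if_pos hu, ← NNReal.coe_le_coe, hlamc]
    have hpt : u • ω + sc u • u' = L (pt u φ) := by
      rw [pt_eq, map_add, map_smul, map_smul, hLe]
    have h3 := h.sf (u • ω + sc u • u') (by rw [hpt, L.norm_map, norm_pt hu])
    refine h3.trans ?_
    have h4 : ⟪v, u • ω + sc u • u'⟫ ≤ R := by
      rw [hpt, hwi, inner_pt]
      apply Real.le_sqrt_of_sq_le
      have h2 : sc u ^ 2 = 1 - u ^ 2 := Real.sq_sqrt (by nlinarith [hu.1, hu.2])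
      nlinarith [sq_nonneg (w 2 * sc u - b * u)]
    have h5 : k * (1 - R) ≤ k * (1 - ⟪v, u • ω + sc u • u'⟫) :=
      mul_le_mul_of_nonneg_left (by linarith) hk
    gcongr
  have h3 := osc hψm (lvl_of h.af hωn hun hov) (fun u hu => by simp only [hψ]; rw [if_neg hu])
    hμm (fun u => h.bm _) (var_of h.vm hωn hun hov) lam hr0
  have h4 : ∫ c in Ioo (-1 : ℝ) 1, F (pt c φ) =
      ∫ u, cexp (-((r * u : ℝ) : ℂ) * I) * (((min (ψ u) lam : ℝ≥0) : ℂ) * μ (u • ω + sc u • u')) := by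
    rw [← integral_indicator measurableSet_Ioo]
    congr 1
    ext u
    by_cases hu : u ∈ Ioo (-1 : ℝ) 1
    · rw [indicator_of_mem hu, min_eq_left (hψle u hu)]
      simp only [hF, hψ, ev]
      rw [if_pos hu, e3_pt, pt_eq, map_add, map_smul, map_smul, hLe]
    · rw [indicator_of_notMem hu]
      simp only [hψ]
      rw [if_neg hu]
      simp
  rw [h4]
  rw [hlamc] at h3
  exact h3

/-- the trivial bound -/
lemma env_a (h : Env B D k v f μ) (hk : 0 < k) (ξ : E 3) (hv : ‖v‖ = 1) :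
    ‖T (ev f μ) ξ‖ ≤ 2 * Real.pi * D / k := by
  have hpi := Real.pi_pos
  have hD := h.D0
  have h0 : ‖T (ev f μ) ξ‖ₑ ≤ ENNReal.ofReal (2 * Real.pi * D / k) := by
    unfold T
    refine (enorm_integral_le_lintegral_enorm _).trans ?_
    have h1 : ∀ x : E 3, ‖cexp (-((⟪ξ, x⟫ : ℝ) : ℂ) * I) * ev f μ x‖ₑ ≤
        ((f x : ℝ≥0) : ℝ≥0∞) := fun x => by
      rw [enorm_mul, ← ofReal_norm, ← ofReal_norm,
        show -((⟪ξ, x⟫ : ℝ) : ℂ) * I = ((-⟪ξ, x⟫ : ℝ) : ℂ) * I by push_cast; ring,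
        Complex.norm_exp_ofReal_mul_I, ENNReal.ofReal_one, one_mul, ← ENNReal.ofReal_coe_nnreal]
      exact ENNReal.ofReal_le_ofReal (ev_norm h x)
    refine (lintegral_mono h1).trans ?_
    set L : E 3 ≃ₗᵢ[ℝ] E 3 := (ℝ ∙ (e3 - v))ᗮ.reflection with hL
    have hLe : L e3 = v := Submodule.reflection_sub (by rw [norm_e3, hv])
    have hmp := sg_inv L
    have hfm : Measurable fun x : E 3 => ((f x : ℝ≥0) : ℝ≥0∞) :=
      measurable_coe_nnreal_ennreal.comp h.mf
    rw [← hmp.lintegral_comp hfm, arch (fun x : E 3 => ((f (L x) : ℝ≥0) : ℝ≥0∞))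
      (hfm.comp L.continuous.measurable)]
    calc ∫⁻ c in Ioo (-1 : ℝ) 1, ∫⁻ φ in Ioo (-Real.pi) Real.pi, ((f (L (pt c φ)) : ℝ≥0) : ℝ≥0∞)
        ≤ ∫⁻ c in Ioo (-1 : ℝ) 1, ENNReal.ofReal (D / 4 * (4 / (1 + k * (1 - c)) ^ 2)) *
            ENNReal.ofReal (2 * Real.pi) := by
          refine setLIntegral_mono' measurableSet_Ioo fun c hc => ?_
          calc ∫⁻ φ in Ioo (-Real.pi) Real.pi, ((f (L (pt c φ)) : ℝ≥0) : ℝ≥0∞)
              ≤ ∫⁻ φ in Ioo (-Real.pi) Real.pi,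
                ENNReal.ofReal (D / 4 * (4 / (1 + k * (1 - c)) ^ 2)) := by
                refine lintegral_mono fun φ => ?_
                rw [← ENNReal.ofReal_coe_nnreal]
                apply ENNReal.ofReal_le_ofReal
                have h3 := h.sf (L (pt c φ)) (by rw [L.norm_map, norm_pt hc])
                have h4 : ⟪v, L (pt c φ)⟫ = c := by
                  rw [← hLe, L.inner_map_map, e3_pt]
                rw [h4] at h3
                refine h3.trans (le_of_eq ?_)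
                ring
            _ = _ := by
                rw [setLIntegral_const, Real.volume_Ioo]
                congr 2
                ring
      _ = ENNReal.ofReal (D / 4) * (∫⁻ c in Ioo (-1 : ℝ) 1,
            ENNReal.ofReal (4 / (1 + k * (1 - c)) ^ 2)) * ENNReal.ofReal (2 * Real.pi) := by
          rw [lintegral_mul_const' _ _ ENNReal.ofReal_ne_top,
            ← lintegral_const_mul' _ _ ENNReal.ofReal_ne_top]
          congr 1
          refine lintegral_congr fun c => ?_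
          rw [ENNReal.ofReal_mul (by positivity)]
      _ ≤ ENNReal.ofReal (D / 4) * ENNReal.ofReal (4 / k) * ENNReal.ofReal (2 * Real.pi) := by
          gcongr
          exact int_quad hk
      _ = _ := by
          rw [← ENNReal.ofReal_mul (by positivity), ← ENNReal.ofReal_mul (by positivity)]
          congr 1
          field_simp
  rw [← ofReal_norm] at h0
  exact (ENNReal.ofReal_le_ofReal_iff (by positivity)).1 h0

/-- decay -/
lemma env_b (h : Env B D k v f μ) (hk : 0 < k) (ξ : E 3) (hv : ‖v‖ = 1) :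
    ‖ξ‖ * ‖T (ev f μ) ξ‖ ≤ 3 * Real.pi ^ 2 * B * D := by
  have hpi := Real.pi_pos
  have hD := h.D0
  rcases eq_or_ne ξ 0 with h0 | h0
  · rw [h0, norm_zero, zero_mul]
    positivity
  have hξ : 0 < ‖ξ‖ := norm_pos_iff.2 h0
  obtain ⟨w, hw, hw2, h1⟩ := env_bound h hk.le ξ hv h0
  have h2 : ‖T (ev f μ) ξ‖ₑ ≤ ENNReal.ofReal (3 * Real.pi ^ 2 * B * D / ‖ξ‖) := by
    refine h1.trans ?_
    calc _ ≤ ∫⁻ φ in Ioo (-Real.pi) Real.pi, ENNReal.ofReal (3 / 2 * Real.pi * B * D / ‖ξ‖) := by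
          refine lintegral_mono fun φ => ?_
          apply ENNReal.ofReal_le_ofReal
          have hsum := sum_sq w hw
          set b : ℝ := w 0 * Real.cos φ + w 1 * Real.sin φ with hb
          have hR1 : √((w 2) ^ 2 + b ^ 2) ≤ 1 := by
            apply Real.sqrt_le_one.2
            have h3 : b ^ 2 ≤ w 0 ^ 2 + w 1 ^ 2 := by
              have := Real.sin_sq_add_cos_sq φ
              have h4 : w 0 ^ 2 + w 1 ^ 2 - b ^ 2 = (w 0 * Real.sin φ - w 1 * Real.cos φ) ^ 2 := by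
                rw [hb]
                linear_combination (- (w 0 ^ 2) - (w 1) ^ 2) * this
              nlinarith [sq_nonneg (w 0 * Real.sin φ - w 1 * Real.cos φ)]
            linarith
          have h5 : 0 ≤ k * (1 - √((w 2) ^ 2 + b ^ 2)) := mul_nonneg hk.le (by linarith)
          have h6 : D / (1 + k * (1 - √((w 2) ^ 2 + b ^ 2))) ^ 2 ≤ D :=
            div_le_self hD (one_le_pow₀ (by linarith))
          gcongr
      _ = _ := by
          rw [setLIntegral_const, Real.volume_Ioo, ← ENNReal.ofReal_mul (by positivity)]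
          congr 1
          ring
  rw [← ofReal_norm] at h2
  have h3 := (ENNReal.ofReal_le_ofReal_iff (by positivity)).1 h2
  calc ‖ξ‖ * ‖T (ev f μ) ξ‖ ≤ ‖ξ‖ * (3 * Real.pi ^ 2 * B * D / ‖ξ‖) := by gcongr
    _ = _ := by field_simp

lemma den_le (hD : 0 ≤ D) (hk : 0 < k) {w : E 3} (hw : ‖w‖ = 1) {s β : ℝ}
    (h0 : w 0 = s * Real.cos β) (h1 : w 1 = s * Real.sin β) (φ : ℝ) :
    D / (1 + k * (1 - √((w 2) ^ 2 + (w 0 * Real.cos φ + w 1 * Real.sin φ) ^ 2))) ^ 2 ≤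
      D * (1 / (1 + k * s ^ 2 / 2 * Real.sin (φ - β) ^ 2)) := by
  have hsum := sum_sq w hw
  set R2 : ℝ := (w 2) ^ 2 + (w 0 * Real.cos φ + w 1 * Real.sin φ) ^ 2 with hR2
  have hR0 : 0 ≤ R2 := by positivity
  have hR : 1 - R2 = s ^ 2 * Real.sin (φ - β) ^ 2 := by
    have e1 : 1 - R2 = (w 0 * Real.sin φ - w 1 * Real.cos φ) ^ 2 := by
      rw [hR2, ← hsum]
      have := Real.sin_sq_add_cos_sq φ
      linear_combination (- (w 0 ^ 2) - (w 1) ^ 2) * this
    rw [e1, h0, h1, Real.sin_sub]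
    ring
  have hR1 : 0 ≤ 1 - R2 := by rw [hR]; positivity
  have hs := Real.sq_sqrt hR0
  have h2 : (1 - R2) / 2 ≤ 1 - √R2 := by nlinarith [sq_nonneg (1 - √R2)]
  have h3 : k * s ^ 2 / 2 * Real.sin (φ - β) ^ 2 ≤ k * (1 - √R2) := by
    have e2 : k * s ^ 2 / 2 * Real.sin (φ - β) ^ 2 = k * ((1 - R2) / 2) := by rw [hR]; ring
    rw [e2]
    exact mul_le_mul_of_nonneg_left h2 hk.le
  have h4 : 0 ≤ k * s ^ 2 / 2 * Real.sin (φ - β) ^ 2 := by positivity
  rw [div_eq_mul_one_div]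
  gcongr
  nlinarith

/-- decay away from the normal -/
lemma env_c {r : ℝ} (hr : 0 < r) (h : Env B D (2 / r ^ 2) v f μ) (ξ : E 3) (hv : ‖v‖ = 1) :
    ‖ξ - (⟪ξ, v⟫ : ℝ) • v‖ * ‖T (ev f μ) ξ‖ ≤ 4 * Real.pi ^ 3 * B * D * r := by
  have hpi := Real.pi_pos
  have hD := h.D0
  have hk : 0 < 2 / r ^ 2 := by positivity
  rcases eq_or_ne ξ 0 with h0 | h0
  · rw [h0, inner_zero_left, zero_smul, sub_zero, norm_zero, zero_mul]
    positivity
  have hξ : 0 < ‖ξ‖ := norm_pos_iff.2 h0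
  obtain ⟨w, hw, hw2, h1⟩ := env_bound h hk.le ξ hv h0
  have hsum := sum_sq w hw
  set z : ℂ := ⟨w 0, w 1⟩ with hz
  set s : ℝ := ‖z‖ with hs
  set β : ℝ := arg z with hβ
  have hs0 : 0 ≤ s := norm_nonneg _
  have hs2 : s ^ 2 = w 0 ^ 2 + w 1 ^ 2 := by
    rw [hs, ← Complex.normSq_eq_norm_sq, Complex.normSq_mk]
    ring
  have e0 : w 0 = s * Real.cos β := by
    have := Complex.norm_mul_cos_arg z
    rw [hs, hβ, this]
  have e1 : w 1 = s * Real.sin β := by
    have := Complex.norm_mul_sin_arg z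
    rw [hs, hβ, this]
  have hh : ‖ξ - (⟪ξ, v⟫ : ℝ) • v‖ = ‖ξ‖ * s := by
    have h2 : ‖ξ - (⟪ξ, v⟫ : ℝ) • v‖ ^ 2 = (‖ξ‖ * s) ^ 2 := by
      rw [norm_sub_sq_real, norm_smul, real_inner_smul_right, hv, Real.norm_eq_abs, mul_one, sq_abs,
        mul_pow, hs2, real_inner_comm, ← hw2]
      nlinarith
    exact (sq_eq_sq₀ (norm_nonneg _) (by positivity)).1 h2
  rw [hh]
  rcases hs0.eq_or_lt with hs1 | hs1
  · rw [← hs1, mul_zero, zero_mul]
    positivity
  set κ : ℝ := 2 / r ^ 2 * s ^ 2 / 2 with hκ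
  have hκ0 : 0 < κ := by positivity
  have hκs : √κ = s / r := by
    rw [hκ, show 2 / r ^ 2 * s ^ 2 / 2 = (s / r) ^ 2 by field_simp]
    exact Real.sqrt_sq (by positivity)
  have h2 : ‖T (ev f μ) ξ‖ₑ ≤ ENNReal.ofReal (4 * Real.pi ^ 3 * B * D * r / (‖ξ‖ * s)) := by
    refine h1.trans ?_
    calc _ ≤ ∫⁻ φ in Ioo (-Real.pi) Real.pi, ENNReal.ofReal (3 / 2 * Real.pi * B * D / ‖ξ‖) *
          ENNReal.ofReal (1 / (1 + κ * Real.sin (φ - β) ^ 2)) := by
          refine lintegral_mono fun φ => ?_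
          rw [← ENNReal.ofReal_mul (by positivity)]
          apply ENNReal.ofReal_le_ofReal
          have h3 := den_le hD hk hw e0 e1 φ
          rw [← hκ] at h3
          calc _ ≤ 3 / 2 * Real.pi * B * (D * (1 / (1 + κ * Real.sin (φ - β) ^ 2))) / ‖ξ‖ := by
                gcongr
            _ = _ := by ring
      _ ≤ ENNReal.ofReal (3 / 2 * Real.pi * B * D / ‖ξ‖) *
            ENNReal.ofReal (5 * Real.pi ^ 2 / (2 * √κ)) := by
          rw [lintegral_const_mul' _ _ ENNReal.ofReal_ne_top]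
          gcongr
          exact int_sin κ β hκ0 (abs_arg_le_pi z)
      _ ≤ _ := by
          rw [← ENNReal.ofReal_mul (by positivity), hκs]
          apply ENNReal.ofReal_le_ofReal
          have e5 : 3 / 2 * Real.pi * B * D / ‖ξ‖ * (5 * Real.pi ^ 2 / (2 * (s / r))) =
              15 / 4 * (Real.pi ^ 3 * B * D * r / (‖ξ‖ * s)) := by
            field_simp
            ring
          have e6 : 4 * Real.pi ^ 3 * B * D * r / (‖ξ‖ * s) =
              4 * (Real.pi ^ 3 * B * D * r / (‖ξ‖ * s)) := by ring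
          rw [e5, e6]
          gcongr
          norm_num
  rw [← ofReal_norm] at h2
  have h3 := (ENNReal.ofReal_le_ofReal_iff (by positivity)).1 h2
  calc ‖ξ‖ * s * ‖T (ev f μ) ξ‖ ≤ ‖ξ‖ * s * (4 * Real.pi ^ 3 * B * D * r / (‖ξ‖ * s)) := by
        gcongr
    _ = _ := by field_simp

end Pool.Agent.V11313.RP
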