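import Pool.Agent.V11313.RP.Main
import Pool.Agent.V11313.RP.Env
import Pool.Agent.H728R3.SR.K

set_option autoImplicit false

/-! The packets. -/

namespace Pool.Agent.V11313.RP

open MeasureTheory Set Metric Complex
open Pool.Agent.H789R2.FR (sg T)
open scoped ENNReal NNReal RealInnerProductSpace

lemma T_meas {g : E3 → ℂ} (hg : Measurable g) : Measurable (T g) := by
  have := Pool.Agent.H789R2.FR.sg_finite 3
  have : StronglyMeasurable (fun z : E3 × E3 =>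
      Complex.exp (-((⟪z.1, z.2⟫ : ℝ) : ℂ) * I) * g z.2) := by
    apply Measurable.stronglyMeasurable
    have h1 : Continuous (fun z : E3 × E3 => Complex.exp (-((⟪z.1, z.2⟫ : ℝ) : ℂ) * I)) := by
      fun_prop
    exact h1.measurable.mul (hg.comp measurable_snd)
  exact (this.integral_prod_right' (ν := sg 3)).measurable

/-- the transform of a packet -/
noncomputable def Zt (f : E3 → ℝ≥0) (μ : E3 → ℂ) (a ξ : E3) : ℂ :=
  T (ev f μ) ((2 * Real.pi) • (ξ - a))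

variable {B : ℕ} {D k : ℝ} {v : E3} {f : E3 → ℝ≥0} {μ : E3 → ℂ}

lemma Zt_meas (h : Env B D k v f μ) (a : E3) : Measurable (Zt f μ a) :=
  (T_meas (ev_meas h)).comp ((measurable_id.sub_const a).const_smul (2 * Real.pi))

lemma Zt_pk {r : ℝ} (hr : 0 < r) (h : Env B B (2 / r ^ 2) v f μ) (hv : ‖v‖ = 1) (a : E3) :
    Pk (4 * Real.pi ^ 3 * (B + 1) ^ 2) r a v (Zt f μ a) := by
  have hpi := Real.pi_gt_three
  have h2pi : 1 ≤ 2 * Real.pi := by linarith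
  have h2pi0 : 0 < 2 * Real.pi := by linarith
  have hB : (0 : ℝ) ≤ B := Nat.cast_nonneg B
  have hBB : (B : ℝ) * B ≤ (B + 1) ^ 2 := by nlinarith
  have hp2 : 0 < Real.pi ^ 2 := by positivity
  have hp3 : 3 * Real.pi ^ 2 ≤ 4 * Real.pi ^ 3 := by nlinarith
  refine ⟨fun ξ => ?_, fun ξ => ?_, fun ξ => ?_⟩
  · refine (env_a h (by positivity) _ hv).trans ?_
    have e1 : 2 * Real.pi * B / (2 / r ^ 2) = Real.pi * B * r ^ 2 := by field_simp
    rw [e1]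
    gcongr
    · calc Real.pi = Real.pi ^ 1 := (pow_one _).symm
        _ ≤ Real.pi ^ 3 := pow_le_pow_right₀ (by linarith) (by norm_num)
        _ ≤ 4 * Real.pi ^ 3 := by
          have : 0 < Real.pi ^ 3 := by positivity
          linarith
    · nlinarith
  · have h1 := env_b h (by positivity) ((2 * Real.pi) • (ξ - a)) hv
    rw [norm_smul, Real.norm_of_nonneg h2pi0.le] at h1
    have h0 : 0 ≤ ‖ξ - a‖ * ‖T (ev f μ) ((2 * Real.pi) • (ξ - a))‖ := by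
      positivity
    have h2 := mul_le_mul_of_nonneg_right h2pi h0
    calc ‖ξ - a‖ * ‖Zt f μ a ξ‖ = 1 * (‖ξ - a‖ *
          ‖T (ev f μ) ((2 * Real.pi) • (ξ - a))‖) := by rw [one_mul]; rfl
      _ ≤ _ := h2
      _ ≤ 3 * Real.pi ^ 2 * B * B := by rw [← mul_assoc]; exact h1
      _ = 3 * Real.pi ^ 2 * (B * B) := by ring
      _ ≤ _ := by gcongr
  · have h1 := env_c hr h ((2 * Real.pi) • (ξ - a)) hv
    have e1 : (2 * Real.pi) • (ξ - a) - (⟪(2 * Real.pi) • (ξ - a), v⟫ : ℝ) • v =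
        (2 * Real.pi) • ((ξ - a) - (⟪ξ - a, v⟫ : ℝ) • v) := by
      rw [real_inner_smul_left, smul_sub (2 * Real.pi) (ξ - a), smul_smul]
    rw [e1, norm_smul, Real.norm_of_nonneg h2pi0.le] at h1
    have h0 : 0 ≤ ‖(ξ - a) - (⟪ξ - a, v⟫ : ℝ) • v‖ *
        ‖T (ev f μ) ((2 * Real.pi) • (ξ - a))‖ := by
      positivity
    have h2 := mul_le_mul_of_nonneg_right h2pi h0
    calc ‖(ξ - a) - (⟪ξ - a, v⟫ : ℝ) • v‖ * ‖Zt f μ a ξ‖ =
          1 * (‖(ξ - a) - (⟪ξ - a, v⟫ : ℝ) • v‖ *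
          ‖T (ev f μ) ((2 * Real.pi) • (ξ - a))‖) := by rw [one_mul]; rfl
      _ ≤ _ := h2
      _ ≤ 4 * Real.pi ^ 3 * B * B * r := by rw [← mul_assoc]; exact h1
      _ = 4 * Real.pi ^ 3 * (B * B) * r := by ring
      _ ≤ _ := by gcongr

/-- the weights -/
lemma weights {m K : ℕ} (hK : 0 < K) (c : Fin m → Fin K → ℂ) (hc : ∀ j, ∑ k, ‖c j k‖ ^ 2 ≤ 1) :
    ∃ lam : Fin m → Fin K → ℝ≥0∞, (∀ j, ∑ k, lam j k = 1) ∧ ∀ j k, ‖c j k‖ₑ ^ 2 ≤ lam j k := by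
  refine ⟨fun j k => ‖c j k‖ₑ ^ 2 + if k = ⟨0, hK⟩ then 1 - ∑ k, ‖c j k‖ₑ ^ 2 else 0, fun j => ?_,
    fun j k => le_self_add⟩
  have h1 : ∑ k, ‖c j k‖ₑ ^ 2 ≤ 1 := by
    have h2 : ∑ k, ‖c j k‖ₑ ^ 2 = ENNReal.ofReal (∑ k, ‖c j k‖ ^ 2) := by
      rw [ENNReal.ofReal_sum_of_nonneg fun k _ => by positivity]
      refine Finset.sum_congr rfl fun k _ => ?_
      rw [← ofReal_norm, ENNReal.ofReal_pow (norm_nonneg _)]
    rw [h2]
    exact ENNReal.ofReal_le_one.2 (hc j)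
  rw [Finset.sum_add_distrib, Finset.sum_ite_eq' Finset.univ]
  simp only [Finset.mem_univ, if_true]
  exact add_tsub_cancel_of_le h1

end Pool.Agent.V11313.RP
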