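import Pool.Agent.V1172.GC.Ptw

set_option autoImplicit false

/-! The Fourier transform of a bump on the sphere. -/

namespace Pool.Agent.V11313.RP

open MeasureTheory Set Metric Complex
open Pool.Agent.H789R2.FR
open Pool.Agent.V1178.LI (Lvl)
open Pool.Agent.V1172.GC
open scoped ENNReal NNReal RealInnerProductSpace

lemma sc_conc : ConcaveOn ℝ (Icc (-1 : ℝ) 1) sc := by
  refine ⟨convex_Icc _ _, fun x hx y hy a b ha hb hab => ?_⟩
  simp only [smul_eq_mul]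
  unfold sc
  have hx0 : 0 ≤ 1 - x ^ 2 := by nlinarith [hx.1, hx.2]
  have hy0 : 0 ≤ 1 - y ^ 2 := by nlinarith [hy.1, hy.2]
  apply Real.le_sqrt_of_sq_le
  have h1 := Real.sq_sqrt hx0
  have h2 := Real.sq_sqrt hy0
  set p := √(1 - x ^ 2)
  set q := √(1 - y ^ 2)
  have h3 : p * q + x * y ≤ 1 := by nlinarith [sq_nonneg (p - q), sq_nonneg (x - y)]
  have h4 := mul_nonneg ha hb
  have h5 : (a * p + b * q) ^ 2 + (a * x + b * y) ^ 2 =
      a ^ 2 * (p ^ 2 + x ^ 2) + b ^ 2 * (q ^ 2 + y ^ 2) + 2 * (a * b) * (p * q + x * y) := by ring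
  have h6 : p ^ 2 + x ^ 2 = 1 := by linarith
  have h7 : q ^ 2 + y ^ 2 = 1 := by linarith
  rw [h6, h7] at h5
  have h8 : (a + b) ^ 2 = 1 := by rw [hab]; norm_num
  nlinarith

/-- the level sets on a great semicircle -/
lemma lvl2 (a b : ℝ) {Φ : ℝ → ℝ≥0} (hΦ : Antitone Φ) {k : ℝ} (hk : 0 ≤ k) :
    Lvl 2 fun u => if u ∈ Ioo (-1 : ℝ) 1 then Φ (k * (1 - (a * u + b * sc u))) else 0 := by
  intro s
  set g : ℝ → ℝ := fun u => a * u + b * sc u with hg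
  have hmono : ∀ x y : ℝ, x ≤ y → Φ (k * (1 - x)) ≤ Φ (k * (1 - y)) := fun x y hxy =>
    hΦ (mul_le_mul_of_nonneg_left (by linarith) hk)
  have hset : {v : ℝ | s < (if v ∈ Ioo (-1 : ℝ) 1 then Φ (k * (1 - (a * v + b * sc v))) else 0)} =
      {v | v ∈ Ioo (-1 : ℝ) 1 ∧ s < Φ (k * (1 - g v))} := by
    ext v
    simp only [mem_ofPred_eq]
    by_cases hv : v ∈ Ioo (-1 : ℝ) 1
    · rw [if_pos hv]
      exact ⟨fun h => ⟨hv, h⟩, fun h => h.2⟩
    · rw [if_neg hv]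
      exact ⟨fun h => absurd h (not_lt.2 zero_le), fun h => absurd h.1 hv⟩
  rw [hset]
  rcases le_total 0 b with hb | hb
  · have hgc : ConcaveOn ℝ (Icc (-1 : ℝ) 1) g := by
      refine ⟨convex_Icc _ _, fun x hx y hy α β hα hβ hαβ => ?_⟩
      have h1 := sc_conc.2 hx hy hα hβ hαβ
      simp only [smul_eq_mul] at h1
      simp only [hg, smul_eq_mul]
      nlinarith [mul_le_mul_of_nonneg_left h1 hb]
    refine ⟨fun _ => {v | v ∈ Ioo (-1 : ℝ) 1 ∧ s < Φ (k * (1 - g v))}, fun _ => ?_, ?_⟩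
    · refine ⟨fun x hx y hy z hz => ?_⟩
      have hz1 : z ∈ Ioo (-1 : ℝ) 1 := ⟨lt_of_lt_of_le hx.1.1 hz.1, lt_of_le_of_lt hz.2 hy.1.2⟩
      refine ⟨hz1, ?_⟩
      have h1 := hgc.min_le_of_mem_Icc (Ioo_subset_Icc_self hx.1) (Ioo_subset_Icc_self hy.1) hz
      rcases min_choice (g x) (g y) with h2 | h2
      · rw [h2] at h1
        exact lt_of_lt_of_le hx.2 (hmono _ _ h1)
      · rw [h2] at h1
        exact lt_of_lt_of_le hy.2 (hmono _ _ h1)
    · rw [iUnion_const]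
  · have hgc : ConvexOn ℝ (Icc (-1 : ℝ) 1) g := by
      refine ⟨convex_Icc _ _, fun x hx y hy α β hα hβ hαβ => ?_⟩
      have h1 := sc_conc.2 hx hy hα hβ hαβ
      simp only [smul_eq_mul] at h1
      simp only [hg, smul_eq_mul]
      nlinarith [mul_le_mul_of_nonpos_left h1 hb]
    set K : Set ℝ := {v | v ∈ Ioo (-1 : ℝ) 1 ∧ Φ (k * (1 - g v)) ≤ s} with hK
    have hKc : ∀ x ∈ K, ∀ y ∈ K, ∀ z ∈ Icc x y, z ∈ K := by
      intro x hx y hy z hz
      have hz1 : z ∈ Ioo (-1 : ℝ) 1 := ⟨lt_of_lt_of_le hx.1.1 hz.1, lt_of_le_of_lt hz.2 hy.1.2⟩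
      refine ⟨hz1, ?_⟩
      have h1 := hgc.le_max_of_mem_Icc (Ioo_subset_Icc_self hx.1) (Ioo_subset_Icc_self hy.1) hz
      rcases max_choice (g x) (g y) with h2 | h2
      · rw [h2] at h1
        exact (hmono _ _ h1).trans hx.2
      · rw [h2] at h1
        exact (hmono _ _ h1).trans hy.2
    refine ⟨![{v | v ∈ Ioo (-1 : ℝ) 1 ∧ ∀ x ∈ K, v < x}, {v | v ∈ Ioo (-1 : ℝ) 1 ∧ ∀ x ∈ K, x < v}],
      fun i => ?_, ?_⟩
    · fin_cases i
      · refine ⟨fun x hx y hy z hz => ?_⟩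
        exact ⟨⟨lt_of_lt_of_le hx.1.1 hz.1, lt_of_le_of_lt hz.2 hy.1.2⟩,
          fun w hw => lt_of_le_of_lt hz.2 (hy.2 w hw)⟩
      · refine ⟨fun x hx y hy z hz => ?_⟩
        exact ⟨⟨lt_of_lt_of_le hx.1.1 hz.1, lt_of_le_of_lt hz.2 hy.1.2⟩,
          fun w hw => lt_of_lt_of_le (hx.2 w hw) hz.1⟩
    · ext v
      simp only [mem_ofPred_eq, mem_iUnion, Fin.exists_fin_two, Matrix.cons_val_zero,
        Matrix.cons_val_one]
      constructor
      · rintro ⟨h1, h2⟩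
        by_contra hcon
        push Not at hcon
        obtain ⟨x, hx, hxv⟩ := hcon.1 h1
        obtain ⟨y, hy, hyv⟩ := hcon.2 h1
        have h3 := hKc x hx y hy v ⟨hxv, hyv⟩
        exact absurd h3.2 (not_le.2 h2)
      · rintro (⟨h1, h2⟩ | ⟨h1, h2⟩)
        · refine ⟨h1, ?_⟩
          by_contra hcon
          exact lt_irrefl _ (h2 v ⟨h1, not_lt.1 hcon⟩)
        · refine ⟨h1, ?_⟩
          by_contra hcon
          exact lt_irrefl _ (h2 v ⟨h1, not_lt.1 hcon⟩)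

/-- one great semicircle -/
lemma arc_bound (a b : ℝ) {Φ : ℝ → ℝ≥0} (hΦ : Antitone Φ) {k : ℝ} (hk : 0 ≤ k) {ρ : ℝ}
    (hρ : 0 < ρ) :
    ‖∫ c in Ioo (-1 : ℝ) 1, cexp (-((ρ * c : ℝ) : ℂ) * I) *
      ((Φ (k * (1 - (a * c + b * sc c))) : ℝ≥0) : ℂ)‖ ≤
      3 * Real.pi * Φ (k * (1 - √(a ^ 2 + b ^ 2))) / ρ := by
  set ψ : ℝ → ℝ≥0 := fun u => if u ∈ Ioo (-1 : ℝ) 1 then Φ (k * (1 - (a * u + b * sc u))) else 0
    with hψ
  set lam : ℝ≥0 := Φ (k * (1 - √(a ^ 2 + b ^ 2))) with hlam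
  have hψm : Measurable ψ := by
    refine Measurable.ite measurableSet_Ioo (hΦ.measurable.comp ?_) measurable_const
    exact (((measurable_id.const_mul a).add (measurable_sc.const_mul b)).const_sub 1).const_mul k
  have hle : ∀ u ∈ Ioo (-1 : ℝ) 1, ψ u ≤ lam := by
    intro u hu
    simp only [hψ]
    rw [if_pos hu]
    refine hΦ (mul_le_mul_of_nonneg_left ?_ hk)
    have h1 : a * u + b * sc u ≤ √(a ^ 2 + b ^ 2) := by
      apply Real.le_sqrt_of_sq_le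
      have h2 : sc u ^ 2 = 1 - u ^ 2 := Real.sq_sqrt (by nlinarith [hu.1, hu.2])
      nlinarith [sq_nonneg (a * sc u - b * u)]
    linarith
  have h3 := osc (N := 2) hψm (lvl2 a b hΦ hk) (fun u hu => by simp only [hψ]; rw [if_neg hu])
    (μ := fun _ => (1 : ℂ)) measurable_const (fun u => by simp)
    (by
      rw [eVariationOn.constant_on]
      · exact zero_le
      · intro x hx y hy
        obtain ⟨_, _, rfl⟩ := hx
        obtain ⟨_, _, rfl⟩ := hy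
        rfl) lam hρ
  have h4 : ∫ c in Ioo (-1 : ℝ) 1, cexp (-((ρ * c : ℝ) : ℂ) * I) *
      ((Φ (k * (1 - (a * c + b * sc c))) : ℝ≥0) : ℂ) =
      ∫ u, cexp (-((ρ * u : ℝ) : ℂ) * I) * (((min (ψ u) lam : ℝ≥0) : ℂ) * 1) := by
    rw [← integral_indicator measurableSet_Ioo]
    congr 1
    ext u
    by_cases hu : u ∈ Ioo (-1 : ℝ) 1
    · rw [indicator_of_mem hu, min_eq_left (hle u hu), mul_one]
      simp only [hψ]
      rw [if_pos hu]
    · rw [indicator_of_notMem hu]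
      simp only [hψ]
      rw [if_neg hu]
      simp
  rw [h4]
  refine h3.trans (le_of_eq ?_)
  push_cast
  ring

end Pool.Agent.V11313.RP
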