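import Pool.Agent.V11313.RP.Cap

set_option autoImplicit false

/-! The Fourier transform of a bump on the sphere: bounds. -/

namespace Pool.Agent.V11313.RP

open MeasureTheory Set Metric Complex
open Pool.Agent.H789R2.FR
open Pool.Agent.V1172.GC
open scoped ENNReal NNReal RealInnerProductSpace

/-- the bump -/
noncomputable def bump (k : ℝ) (Φ : ℝ → ℝ≥0) (v x : E 3) : ℂ :=
  ((Φ (k * (1 - ⟪v, x⟫)) : ℝ≥0) : ℂ)

lemma bump_meas {k : ℝ} {Φ : ℝ → ℝ≥0} (hΦ : Antitone Φ) (v : E 3) : Measurable (bump k Φ v) := by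
  have h1 : Measurable fun x : E 3 => k * (1 - ⟪v, x⟫) :=
    (by fun_prop : Continuous fun x : E 3 => k * (1 - ⟪v, x⟫)).measurable
  exact Complex.measurable_ofReal.comp (measurable_coe_nnreal_real.comp (hΦ.measurable.comp h1))

lemma inner_pt (w : E 3) (c φ : ℝ) :
    ⟪w, pt c φ⟫ = w 2 * c + (w 0 * Real.cos φ + w 1 * Real.sin φ) * sc c := by
  simp [pt, Fin.sum_univ_three, PiLp.inner_apply]
  ring

lemma bump_pt (k : ℝ) (Φ : ℝ → ℝ≥0) (w : E 3) (c φ : ℝ) : bump k Φ w (pt c φ) =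
    ((Φ (k * (1 - (w 2 * c + (w 0 * Real.cos φ + w 1 * Real.sin φ) * sc c))) : ℝ≥0) : ℂ) := by
  rw [bump, inner_pt]

lemma sum_sq (w : E 3) (hw : ‖w‖ = 1) : w 0 ^ 2 + w 1 ^ 2 + w 2 ^ 2 = 1 := by
  have h1 : ‖w‖ ^ 2 = 1 := by rw [hw]; norm_num
  rw [EuclideanSpace.norm_sq_eq] at h1
  simpa [Fin.sum_univ_three] using h1

/-- polar coordinates about the direction of the frequency -/
lemma T_bound {Φ : ℝ → ℝ≥0} (hΦ : Antitone Φ) (hΦ0 : ∀ y, Φ y ≤ 4) {k : ℝ} (hk : 0 ≤ k) (v ξ : E 3)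
    (hv : ‖v‖ = 1) (hξ : ξ ≠ 0) :
    ∃ w : E 3, ‖w‖ = 1 ∧ w 2 * ‖ξ‖ = ⟪v, ξ⟫ ∧
      ‖T (bump k Φ v) ξ‖ₑ ≤ ∫⁻ φ in Ioo (-Real.pi) Real.pi, ENNReal.ofReal (3 * Real.pi *
        Φ (k * (1 - √((w 2) ^ 2 + (w 0 * Real.cos φ + w 1 * Real.sin φ) ^ 2))) / ‖ξ‖) := by
  set r : ℝ := ‖ξ‖ with hr
  have hr0 : 0 < r := norm_pos_iff.2 hξ
  set ω : E 3 := r⁻¹ • ξ with hω
  have hωn : ‖ω‖ = 1 := by
    rw [hω, norm_smul, norm_inv, Real.norm_of_nonneg hr0.le, ← hr, inv_mul_cancel₀ hr0.ne']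
  have hξω : ξ = r • ω := by rw [hω, smul_smul, mul_inv_cancel₀ hr0.ne', one_smul]
  set L : E 3 ≃ₗᵢ[ℝ] E 3 := (ℝ ∙ (e3 - ω))ᗮ.reflection with hL
  have hLe : L e3 = ω := Submodule.reflection_sub (by rw [norm_e3, hωn])
  have hmp := sg_inv L
  have hemb : MeasurableEmbedding L := L.toHomeomorph.measurableEmbedding
  set w : E 3 := L.symm v with hw
  have hwi : ∀ x, ⟪v, L x⟫ = ⟪w, x⟫ := fun x => by
    rw [hw, ← L.inner_map_map (L.symm v) x, L.apply_symm_apply]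
  refine ⟨w, by rw [hw, L.symm.norm_map, hv], ?_, ?_⟩
  · have h1 : ⟪w, e3⟫ = w 2 := by
      simp [e3, Fin.sum_univ_three, PiLp.inner_apply]
    rw [← h1, ← hwi, hLe, hω, real_inner_smul_right]
    field_simp
  set F : E 3 → ℂ := fun x => cexp (-((r * ⟪e3, x⟫ : ℝ) : ℂ) * I) * bump k Φ w x with hF
  have hexm : Measurable fun w : E 3 => cexp (-((r * ⟪e3, w⟫ : ℝ) : ℂ) * I) := by
    have : Continuous fun w : E 3 => cexp (-((r * ⟪e3, w⟫ : ℝ) : ℂ) * I) := by fun_prop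
    exact this.measurable
  have hFm : Measurable F := hexm.mul (bump_meas hΦ w)
  have hexn : ∀ t : ℝ, ‖cexp (-((t : ℝ) : ℂ) * I)‖ = 1 := fun t => by
    rw [show -((t : ℝ) : ℂ) * I = ((-t : ℝ) : ℂ) * I by push_cast; ring,
      Complex.norm_exp_ofReal_mul_I]
  have hFb : ∀ x, ‖F x‖ ≤ 4 := fun x => by
    simp only [hF]
    rw [norm_mul, hexn, one_mul, bump, Complex.norm_real, Real.norm_of_nonneg (NNReal.coe_nonneg _)]
    exact_mod_cast hΦ0 _
  have h1 : T (bump k Φ v) ξ = ∫ x, F x ∂(sg 3) := by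
    unfold T
    rw [← hmp.integral_comp hemb (fun x => cexp (-((⟪ξ, x⟫ : ℝ) : ℂ) * I) * bump k Φ v x)]
    congr 1
    ext x
    simp only [hF, bump]
    rw [hwi]
    congr 3
    rw [hξω, ← hLe, real_inner_smul_left, L.inner_map_map]
  rw [h1, arch_int F hFm ⟨4, hFb⟩]
  have hint : Integrable (fun p : ℝ × ℝ => F (pt p.1 p.2))
      ((volume.restrict (Ioo (-1 : ℝ) 1)).prod (volume.restrict (Ioo (-Real.pi) Real.pi))) :=
    Integrable.of_bound (C := 4) (hFm.comp measurable_pt).aestronglyMeasurable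
      (Filter.Eventually.of_forall fun p => hFb _)
  rw [integral_integral_swap hint]
  refine (enorm_integral_le_lintegral_enorm _).trans (lintegral_mono fun φ => ?_)
  rw [← ofReal_norm]
  apply ENNReal.ofReal_le_ofReal
  have h2 := arc_bound (w 2) (w 0 * Real.cos φ + w 1 * Real.sin φ) hΦ hk hr0
  refine le_trans (le_of_eq ?_) h2
  congr 1
  refine setIntegral_congr_fun measurableSet_Ioo fun c _ => ?_
  simp only [hF]
  rw [e3_pt, bump_pt]

lemma sin_near (κ : ℝ) (hκ : 0 ≤ κ) (x : ℝ) (hx : |x| ≤ 2 * Real.pi) :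
    1 / (1 + κ * Real.sin x ^ 2) ≤
      ∑ m ∈ Finset.Icc (-2 : ℤ) 2, (1 + (√κ * (2 / Real.pi) * (x - m * Real.pi)) ^ 2)⁻¹ := by
  have hpi := Real.pi_pos
  set m : ℤ := round (x / Real.pi) with hm
  have h1 : |x / Real.pi - m| ≤ 1 / 2 := abs_sub_round _
  have h2 : |x - m * Real.pi| ≤ Real.pi / 2 := by
    have : x - m * Real.pi = (x / Real.pi - m) * Real.pi := by field_simp
    rw [this, abs_mul, abs_of_pos hpi]
    nlinarith
  have h3 : |x / Real.pi| ≤ 2 := by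
    rw [abs_div, abs_of_pos hpi, div_le_iff₀ hpi]
    exact hx
  have h4 : m ∈ Finset.Icc (-2 : ℤ) 2 := by
    rw [Finset.mem_Icc]
    have h5 := abs_le.1 h1
    have h6 := abs_le.1 h3
    constructor
    · have : (-3 : ℝ) < (m : ℝ) := by linarith
      have : (-3 : ℤ) < m := by exact_mod_cast this
      omega
    · have : (m : ℝ) < 3 := by linarith
      have : m < (3 : ℤ) := by exact_mod_cast this
      omega
  refine le_trans ?_ (Finset.single_le_sum (f := fun m : ℤ =>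
    (1 + (√κ * (2 / Real.pi) * (x - m * Real.pi)) ^ 2)⁻¹) (fun i _ => by positivity) h4)
  have h7 : 2 / Real.pi * |x - m * Real.pi| ≤ |Real.sin (x - m * Real.pi)| :=
    Real.mul_abs_le_abs_sin h2
  have h8 : Real.sin (x - m * Real.pi) ^ 2 = Real.sin x ^ 2 := by
    rw [Real.sin_sub_int_mul_pi, mul_pow, ← zpow_natCast, ← zpow_mul, mul_comm m, zpow_mul]
    simp
  have h9 : (2 / Real.pi * (x - m * Real.pi)) ^ 2 ≤ Real.sin x ^ 2 := by
    rw [← h8, sq_le_sq, abs_mul, abs_of_pos (by positivity : 0 < 2 / Real.pi)]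
    exact h7
  rw [one_div]
  apply inv_anti₀ (by positivity)
  have h10 : (√κ * (2 / Real.pi) * (x - m * Real.pi)) ^ 2 =
      κ * (2 / Real.pi * (x - m * Real.pi)) ^ 2 := by
    rw [mul_assoc, mul_pow, Real.sq_sqrt hκ]
  rw [h10]
  nlinarith [mul_le_mul_of_nonneg_left h9 hκ]

lemma int_inv (c d : ℝ) (hc : 0 < c) :
    ∫⁻ x : ℝ, ENNReal.ofReal ((1 + (c * (x - d)) ^ 2)⁻¹) = ENNReal.ofReal (Real.pi / c) := by
  have h1 : Integrable fun x : ℝ => (1 + (c * (x - d)) ^ 2)⁻¹ :=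
    (integrable_inv_one_add_sq.comp_mul_left' hc.ne').comp_sub_right d
  rw [← ofReal_integral_eq_lintegral_ofReal h1 (Filter.Eventually.of_forall fun x => by
    simp only [Pi.zero_apply]; positivity)]
  congr 1
  rw [integral_sub_right_eq_self (fun x : ℝ => (1 + (c * x) ^ 2)⁻¹) d,
    Measure.integral_comp_mul_left (fun x : ℝ => (1 + x ^ 2)⁻¹) c, integral_univ_inv_one_add_sq,
    smul_eq_mul, abs_of_pos (by positivity)]
  field_simp

lemma int_sin (κ β : ℝ) (hκ : 0 < κ) (hβ : |β| ≤ Real.pi) :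
    ∫⁻ φ in Ioo (-Real.pi) Real.pi, ENNReal.ofReal (1 / (1 + κ * Real.sin (φ - β) ^ 2)) ≤
      ENNReal.ofReal (5 * Real.pi ^ 2 / (2 * √κ)) := by
  have hpi := Real.pi_pos
  have hsq : 0 < √κ := Real.sqrt_pos.2 hκ
  have hm1 : ∀ m : ℤ, Measurable fun φ : ℝ => ENNReal.ofReal
      ((1 + (√κ * (2 / Real.pi) * (φ - β - m * Real.pi)) ^ 2)⁻¹) := fun m => by fun_prop
  calc ∫⁻ φ in Ioo (-Real.pi) Real.pi, ENNReal.ofReal (1 / (1 + κ * Real.sin (φ - β) ^ 2))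
      ≤ ∫⁻ φ in Ioo (-Real.pi) Real.pi, ∑ m ∈ Finset.Icc (-2 : ℤ) 2, ENNReal.ofReal
          ((1 + (√κ * (2 / Real.pi) * (φ - β - m * Real.pi)) ^ 2)⁻¹) := by
        refine setLIntegral_mono' measurableSet_Ioo fun φ hφ => ?_
        rw [← ENNReal.ofReal_sum_of_nonneg fun m _ => by positivity]
        apply ENNReal.ofReal_le_ofReal
        apply sin_near κ hκ.le
        have h1 := abs_le.1 hβ
        rw [abs_le]
        constructor <;> linarith [hφ.1, hφ.2]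
    _ ≤ ∫⁻ φ, ∑ m ∈ Finset.Icc (-2 : ℤ) 2, ENNReal.ofReal
          ((1 + (√κ * (2 / Real.pi) * (φ - β - m * Real.pi)) ^ 2)⁻¹) :=
        setLIntegral_le_lintegral _ _
    _ = ∑ m ∈ Finset.Icc (-2 : ℤ) 2, ∫⁻ φ, ENNReal.ofReal
          ((1 + (√κ * (2 / Real.pi) * (φ - β - m * Real.pi)) ^ 2)⁻¹) :=
        lintegral_finsetSum _ fun m _ => hm1 m
    _ = ∑ m ∈ Finset.Icc (-2 : ℤ) 2, ENNReal.ofReal (Real.pi / (√κ * (2 / Real.pi))) := by
        refine Finset.sum_congr rfl fun m _ => ?_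
        rw [← int_inv (√κ * (2 / Real.pi)) (β + m * Real.pi) (by positivity)]
        simp only [sub_sub]
    _ ≤ _ := by
        rw [Finset.sum_const, ← ENNReal.ofReal_nsmul]
        apply ENNReal.ofReal_le_ofReal
        rw [show (Finset.Icc (-2 : ℤ) 2).card = 5 by decide]
        rw [nsmul_eq_mul]
        apply le_of_eq
        push_cast
        field_simp

end Pool.Agent.V11313.RP
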