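import Pool.Agent.V11313.RP.Cap2

set_option autoImplicit false

/-! The Fourier transform of a bump on the sphere: the three bounds. -/

namespace Pool.Agent.V11313.RP

open MeasureTheory Set Metric Complex
open Pool.Agent.H789R2.FR
open Pool.Agent.V1172.GC
open scoped ENNReal NNReal RealInnerProductSpace

/-- profiles -/
structure Prof (Φ : ℝ → ℝ≥0) : Prop where
  anti : Antitone Φ
  le4 : ∀ y, Φ y ≤ 4
  le : ∀ y, 0 ≤ y → (Φ y : ℝ) ≤ 4 / (1 + y) ^ 2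

lemma int_quad {k : ℝ} (hk : 0 < k) :
    ∫⁻ c in Ioo (-1 : ℝ) 1, ENNReal.ofReal (4 / (1 + k * (1 - c)) ^ 2) ≤ ENNReal.ofReal (4 / k) := by
  have hpos : ∀ c ∈ uIcc (-1 : ℝ) 1, 0 < 1 + k * (1 - c) := fun c hc => by
    rw [uIcc_of_le (by norm_num)] at hc
    have := mul_nonneg hk.le (by linarith [hc.2] : 0 ≤ 1 - c)
    linarith
  have hcont : ContinuousOn (fun c : ℝ => 4 / (1 + k * (1 - c)) ^ 2) (uIcc (-1 : ℝ) 1) := by
    refine ContinuousOn.div (by fun_prop) (by fun_prop) fun c hc => ?_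
    have := hpos c hc
    positivity
  have hii : IntervalIntegrable (fun c : ℝ => 4 / (1 + k * (1 - c)) ^ 2) volume (-1) 1 :=
    hcont.intervalIntegrable
  have h1 := intervalIntegral.integral_eq_sub_of_hasDerivAt
    (f := fun c : ℝ => 4 / k * (1 + k * (1 - c))⁻¹) (f' := fun c : ℝ => 4 / (1 + k * (1 - c)) ^ 2)
    (a := -1) (b := 1) (fun c hc => by
      have h2 : HasDerivAt (fun c : ℝ => 1 + k * (1 - c)) (k * (-1)) c :=
        (((hasDerivAt_id c).const_sub 1).const_mul k).const_add 1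
      have h3 := (h2.inv (hpos c hc).ne').const_mul (4 / k)
      have h6 := hpos c hc
      refine h3.congr_deriv ?_
      simp only [mul_neg, mul_one, neg_neg]
      field_simp) hii
  rw [setLIntegral_congr Ioo_ae_eq_Ioc, ← ofReal_integral_eq_lintegral_ofReal]
  · apply ENNReal.ofReal_le_ofReal
    rw [← intervalIntegral.integral_of_le (by norm_num), h1]
    have h4 : 0 < 4 / k * (1 + k * (1 - (-1)))⁻¹ := by
      have := hpos (-1) left_mem_uIcc
      positivity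
    have h5 : 4 / k * (1 + k * (1 - 1))⁻¹ = 4 / k := by
      rw [sub_self, mul_zero, add_zero, inv_one, mul_one]
    rw [h5]
    linarith
  · exact (intervalIntegrable_iff_integrableOn_Ioc_of_le (by norm_num)).1 hii
  · refine Filter.Eventually.of_forall fun c => ?_
    simp only [Pi.zero_apply]
    positivity

/-- the trivial bound -/
lemma bound_a {Φ : ℝ → ℝ≥0} (hΦ : Prof Φ) {k : ℝ} (hk : 0 < k) (v ξ : E 3) (hv : ‖v‖ = 1) :
    ‖T (bump k Φ v) ξ‖ ≤ 8 * Real.pi / k := by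
  have hpi := Real.pi_pos
  have h0 : ‖T (bump k Φ v) ξ‖ₑ ≤ ENNReal.ofReal (8 * Real.pi / k) := by
    unfold T
    refine (enorm_integral_le_lintegral_enorm _).trans ?_
    have h1 : ∀ x : E 3, ‖cexp (-((⟪ξ, x⟫ : ℝ) : ℂ) * I) * bump k Φ v x‖ₑ =
        ((Φ (k * (1 - ⟪v, x⟫)) : ℝ≥0) : ℝ≥0∞) := fun x => by
      rw [enorm_mul, ← ofReal_norm, ← ofReal_norm,
        show -((⟪ξ, x⟫ : ℝ) : ℂ) * I = ((-⟪ξ, x⟫ : ℝ) : ℂ) * I by push_cast; ring,
        Complex.norm_exp_ofReal_mul_I, ENNReal.ofReal_one, one_mul, bump, Complex.norm_real,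
        Real.norm_of_nonneg (NNReal.coe_nonneg _), ENNReal.ofReal_coe_nnreal]
    simp only [h1]
    set L : E 3 ≃ₗᵢ[ℝ] E 3 := (ℝ ∙ (e3 - v))ᗮ.reflection with hL
    have hLe : L e3 = v := Submodule.reflection_sub (by rw [norm_e3, hv])
    have hmp := sg_inv L
    have hfm : ∀ w : E 3, Measurable fun x : E 3 => ((Φ (k * (1 - ⟪w, x⟫)) : ℝ≥0) : ℝ≥0∞) := by
      intro w
      have h2 : Measurable fun x : E 3 => k * (1 - ⟪w, x⟫) :=
        (by fun_prop : Continuous fun x : E 3 => k * (1 - ⟪w, x⟫)).measurable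
      exact measurable_coe_nnreal_ennreal.comp (hΦ.anti.measurable.comp h2)
    rw [← hmp.lintegral_comp (hfm v)]
    have h3 : ∀ x : E 3, ⟪v, L x⟫ = ⟪e3, x⟫ := fun x => by
      rw [← hLe, L.inner_map_map]
    simp only [h3]
    rw [arch _ (hfm e3)]
    simp only [e3_pt]
    calc ∫⁻ c in Ioo (-1 : ℝ) 1, ∫⁻ φ in Ioo (-Real.pi) Real.pi, ((Φ (k * (1 - c)) : ℝ≥0) : ℝ≥0∞)
        ≤ ∫⁻ c in Ioo (-1 : ℝ) 1, ENNReal.ofReal (4 / (1 + k * (1 - c)) ^ 2) *
            ENNReal.ofReal (2 * Real.pi) := by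
          refine setLIntegral_mono' measurableSet_Ioo fun c hc => ?_
          rw [setLIntegral_const, Real.volume_Ioo]
          gcongr
          · rw [← ENNReal.ofReal_coe_nnreal]
            apply ENNReal.ofReal_le_ofReal
            exact hΦ.le _ (mul_nonneg hk.le (by linarith [hc.2]))
          · apply le_of_eq; ring
      _ ≤ ENNReal.ofReal (4 / k) * ENNReal.ofReal (2 * Real.pi) := by
          rw [lintegral_mul_const' _ _ ENNReal.ofReal_ne_top]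
          gcongr
          exact int_quad hk
      _ = _ := by
          rw [← ENNReal.ofReal_mul (by positivity)]
          congr 1
          ring
  rw [← ofReal_norm] at h0
  exact (ENNReal.ofReal_le_ofReal_iff (by positivity)).1 h0

/-- decay -/
lemma bound_b {Φ : ℝ → ℝ≥0} (hΦ : Prof Φ) {k : ℝ} (hk : 0 < k) (v ξ : E 3) (hv : ‖v‖ = 1) :
    ‖ξ‖ * ‖T (bump k Φ v) ξ‖ ≤ 24 * Real.pi ^ 2 := by
  have hpi := Real.pi_pos
  rcases eq_or_ne ξ 0 with h0 | h0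
  · rw [h0, norm_zero, zero_mul]
    positivity
  have hξ : 0 < ‖ξ‖ := norm_pos_iff.2 h0
  obtain ⟨w, hw, hw2, h1⟩ := T_bound hΦ.anti hΦ.le4 hk.le v ξ hv h0
  have h2 : ‖T (bump k Φ v) ξ‖ₑ ≤ ENNReal.ofReal (24 * Real.pi ^ 2 / ‖ξ‖) := by
    refine h1.trans ?_
    calc _ ≤ ∫⁻ φ in Ioo (-Real.pi) Real.pi, ENNReal.ofReal (12 * Real.pi / ‖ξ‖) := by
          refine lintegral_mono fun φ => ?_
          apply ENNReal.ofReal_le_ofReal
          have h3 : ((Φ (k * (1 - √((w 2) ^ 2 + (w 0 * Real.cos φ + w 1 * Real.sin φ) ^ 2)))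
              : ℝ≥0) : ℝ) ≤ 4 := by exact_mod_cast hΦ.le4 _
          rw [div_le_div_iff_of_pos_right hξ]
          nlinarith
      _ = _ := by
          rw [setLIntegral_const, Real.volume_Ioo, ← ENNReal.ofReal_mul (by positivity)]
          congr 1
          ring
  rw [← ofReal_norm] at h2
  have h3 := (ENNReal.ofReal_le_ofReal_iff (by positivity)).1 h2
  calc ‖ξ‖ * ‖T (bump k Φ v) ξ‖ ≤ ‖ξ‖ * (24 * Real.pi ^ 2 / ‖ξ‖) := by gcongr
    _ = _ := by field_simp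

lemma phi_le {Φ : ℝ → ℝ≥0} (hΦ : Prof Φ) {k : ℝ} (hk : 0 < k) {w : E 3} (hw : ‖w‖ = 1) {s β : ℝ}
    (h0 : w 0 = s * Real.cos β) (h1 : w 1 = s * Real.sin β) (φ : ℝ) :
    ((Φ (k * (1 - √((w 2) ^ 2 + (w 0 * Real.cos φ + w 1 * Real.sin φ) ^ 2))) : ℝ≥0) : ℝ) ≤
      4 * (1 / (1 + k * s ^ 2 / 2 * Real.sin (φ - β) ^ 2)) := by
  have hsum := sum_sq w hw
  set R2 : ℝ := (w 2) ^ 2 + (w 0 * Real.cos φ + w 1 * Real.sin φ) ^ 2 with hR2
  have hR0 : 0 ≤ R2 := by positivity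
  have hR : 1 - R2 = s ^ 2 * Real.sin (φ - β) ^ 2 := by
    have e1 : 1 - R2 = (w 0 * Real.sin φ - w 1 * Real.cos φ) ^ 2 := by
      rw [hR2, ← hsum]
      have := Real.sin_sq_add_cos_sq φ
      linear_combination (- (w 0 ^ 2) - (w 1) ^ 2) * this
    rw [e1, h0, h1, Real.sin_sub]
    ring
  have hR1 : 0 ≤ 1 - R2 := by rw [hR]; positivity
  have hs := Real.sq_sqrt hR0
  have h2 : (1 - R2) / 2 ≤ 1 - √R2 := by nlinarith [sq_nonneg (1 - √R2)]
  have h3 : k * s ^ 2 / 2 * Real.sin (φ - β) ^ 2 ≤ k * (1 - √R2) := by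
    have e2 : k * s ^ 2 / 2 * Real.sin (φ - β) ^ 2 = k * ((1 - R2) / 2) := by rw [hR]; ring
    rw [e2]
    exact mul_le_mul_of_nonneg_left h2 hk.le
  have h4 : 0 ≤ k * s ^ 2 / 2 * Real.sin (φ - β) ^ 2 := by positivity
  refine (hΦ.le _ (h4.trans h3)).trans ?_
  rw [div_eq_mul_one_div]
  gcongr
  nlinarith

/-- decay away from the normal -/
lemma bound_c {Φ : ℝ → ℝ≥0} (hΦ : Prof Φ) {r : ℝ} (hr : 0 < r) (v ξ : E 3) (hv : ‖v‖ = 1) :
    ‖ξ - (⟪ξ, v⟫ : ℝ) • v‖ * ‖T (bump (2 / r ^ 2) Φ v) ξ‖ ≤ 30 * Real.pi ^ 3 * r := by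
  have hpi := Real.pi_pos
  have hk : 0 < 2 / r ^ 2 := by positivity
  rcases eq_or_ne ξ 0 with h0 | h0
  · rw [h0, inner_zero_left, zero_smul, sub_zero, norm_zero, zero_mul]
    positivity
  have hξ : 0 < ‖ξ‖ := norm_pos_iff.2 h0
  obtain ⟨w, hw, hw2, h1⟩ := T_bound hΦ.anti hΦ.le4 hk.le v ξ hv h0
  have hsum := sum_sq w hw
  set z : ℂ := ⟨w 0, w 1⟩ with hz
  set s : ℝ := ‖z‖ with hs
  set β : ℝ := arg z with hβ
  have hs0 : 0 ≤ s := norm_nonneg _
  have hs2 : s ^ 2 = w 0 ^ 2 + w 1 ^ 2 := by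
    rw [hs, ← Complex.normSq_eq_norm_sq, Complex.normSq_mk]
    ring
  have e0 : w 0 = s * Real.cos β := by
    have := Complex.norm_mul_cos_arg z
    rw [hs, hβ, this]
  have e1 : w 1 = s * Real.sin β := by
    have := Complex.norm_mul_sin_arg z
    rw [hs, hβ, this]
  have hh : ‖ξ - (⟪ξ, v⟫ : ℝ) • v‖ = ‖ξ‖ * s := by
    have h2 : ‖ξ - (⟪ξ, v⟫ : ℝ) • v‖ ^ 2 = (‖ξ‖ * s) ^ 2 := by
      rw [norm_sub_sq_real, norm_smul, real_inner_smul_right, hv, Real.norm_eq_abs, mul_one, sq_abs,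
        mul_pow, hs2, real_inner_comm, ← hw2]
      nlinarith
    exact (sq_eq_sq₀ (norm_nonneg _) (by positivity)).1 h2
  rw [hh]
  rcases hs0.eq_or_lt with hs1 | hs1
  · rw [← hs1, mul_zero, zero_mul]
    positivity
  set κ : ℝ := 2 / r ^ 2 * s ^ 2 / 2 with hκ
  have hκ0 : 0 < κ := by positivity
  have hκs : √κ = s / r := by
    rw [hκ, show 2 / r ^ 2 * s ^ 2 / 2 = (s / r) ^ 2 by field_simp]
    exact Real.sqrt_sq (by positivity)
  have h2 : ‖T (bump (2 / r ^ 2) Φ v) ξ‖ₑ ≤ ENNReal.ofReal (30 * Real.pi ^ 3 * r / (‖ξ‖ * s)) := by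
    refine h1.trans ?_
    calc _ ≤ ∫⁻ φ in Ioo (-Real.pi) Real.pi, ENNReal.ofReal (12 * Real.pi / ‖ξ‖) *
          ENNReal.ofReal (1 / (1 + κ * Real.sin (φ - β) ^ 2)) := by
          refine lintegral_mono fun φ => ?_
          rw [← ENNReal.ofReal_mul (by positivity)]
          apply ENNReal.ofReal_le_ofReal
          have h3 := phi_le hΦ hk hw e0 e1 φ
          rw [← hκ] at h3
          calc _ ≤ 3 * Real.pi * (4 * (1 / (1 + κ * Real.sin (φ - β) ^ 2))) / ‖ξ‖ := by gcongr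
            _ = _ := by ring
      _ ≤ ENNReal.ofReal (12 * Real.pi / ‖ξ‖) * ENNReal.ofReal (5 * Real.pi ^ 2 / (2 * √κ)) := by
          rw [lintegral_const_mul' _ _ ENNReal.ofReal_ne_top]
          gcongr
          exact int_sin κ β hκ0 (abs_arg_le_pi z)
      _ = _ := by
          rw [← ENNReal.ofReal_mul (by positivity), hκs]
          congr 1
          field_simp
          ring
  rw [← ofReal_norm] at h2
  have h3 := (ENNReal.ofReal_le_ofReal_iff (by positivity)).1 h2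
  calc ‖ξ‖ * s * ‖T (bump (2 / r ^ 2) Φ v) ξ‖ ≤ ‖ξ‖ * s * (30 * Real.pi ^ 3 * r / (‖ξ‖ * s)) := by
        gcongr
    _ = _ := by field_simp

end Pool.Agent.V11313.RP
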