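import Pool.Agent.V11313.RP.NSq

set_option autoImplicit false

/-! The square function, all dimensions. -/

namespace Pool.Agent.V11313.RP.ND

open MeasureTheory Set Metric
open Pool.Agent.Y254 (mult mult_meas)
open Pool.Agent.Results.MP_5168f5_an.TubesMeetingCurve (OrderLE)
open Pool.Agent.V11313.CT (W one_le_W)
open Pool.Agent.V11313.RP (pow_tsum)
open scoped ENNReal NNReal RealInnerProductSpace

variable {d : ℕ}

lemma sum_le {C₀ r : ℝ} (hC : 0 < C₀) (hr : 0 < r) {m K : ℕ} {a : Fin m → Fin K → Ed d}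
    {v : Fin m → Ed d} (hv : ∀ i, ‖v i‖ = 1) {Z : Fin m → Fin K → Ed d → ℂ}
    (hZ : ∀ i k, Pk C₀ r (a i k) (v i) (Z i k)) (lam : Fin m → Fin K → ℝ≥0∞) (ξ : Ed d) :
    ∑ i, ∑ k, lam i k * ‖Z i k ξ‖ₑ ^ 2 ≤ ∑' p : ℕ, ENNReal.ofReal (C₀ ^ 2 * (2 / tau r p) ^ d) *
      wmult r (tau r p) a v lam ξ := by
  calc ∑ i, ∑ k, lam i k * ‖Z i k ξ‖ₑ ^ 2 ≤ ∑ i, ∑ k, lam i k *
        ∑' p : ℕ, ENNReal.ofReal (C₀ ^ 2 * (2 / tau r p) ^ d) *
        (Tb r (tau r p) (a i k) (v i)).indicator 1 ξ :=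
        Finset.sum_le_sum fun i _ => Finset.sum_le_sum fun k _ =>
          mul_le_mul' le_rfl (pk_sq hC hr (hv i) (hZ i k) ξ)
    _ = ∑' p : ℕ, ∑ i, ∑ k, lam i k * (ENNReal.ofReal (C₀ ^ 2 * (2 / tau r p) ^ d) *
        (Tb r (tau r p) (a i k) (v i)).indicator 1 ξ) := by
        rw [Summable.tsum_finsetSum fun i _ => ENNReal.summable]
        refine Finset.sum_congr rfl fun i _ => ?_
        rw [Summable.tsum_finsetSum fun i _ => ENNReal.summable]
        exact Finset.sum_congr rfl fun k _ => ENNReal.tsum_mul_left.symm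
    _ = _ := by
        refine tsum_congr fun p => ?_
        rw [wmult, Finset.mul_sum]
        refine Finset.sum_congr rfl fun i _ => ?_
        rw [Finset.mul_sum]
        refine Finset.sum_congr rfl fun k _ => ?_
        ring

lemma algebra {s C₀ r : ℝ} (hC : 0 < C₀) (hr : 0 < r) {u y : ℝ} (hu : 0 < u)
    (hy : 0 < y) (hu2 : u ^ 2 = 2 ^ (d + 1) / ((2 : ℝ) ^ d) ^ s) (hys : y ^ s = u) (p : ℕ) :
    (C₀ ^ 2 * (2 / tau r p) ^ d / y ^ p) ^ s * (2 * tau r p) ^ (d + 1) =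
      2 ^ (d + 1) * (C₀ ^ 2 * 2 ^ d) ^ s * ((r ^ (2 * d)) ^ s / r ^ (2 * (d + 1))) * u ^ p := by
  have htau : tau r p = 2 ^ p / r ^ 2 := rfl
  have e1 : C₀ ^ 2 * (2 / tau r p) ^ d / y ^ p =
      (C₀ ^ 2 * 2 ^ d) * r ^ (2 * d) / ((2 ^ d) ^ p * y ^ p) := by
    have h1 : (2 / tau r p) ^ d = 2 ^ d * r ^ (2 * d) / (2 ^ d) ^ p := by
      rw [htau, div_div_eq_mul_div, div_pow, mul_pow, ← pow_mul, ← pow_mul, ← pow_mul,
        mul_comm p d]
    rw [h1]
    field_simp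
  have e2 : (2 * tau r p) ^ (d + 1) = 2 ^ (d + 1) * (2 ^ (d + 1)) ^ p / r ^ (2 * (d + 1)) := by
    rw [htau, mul_pow, div_pow, ← pow_mul, ← pow_mul, ← pow_mul, mul_comm p (d + 1)]
    ring
  have e3 : (((2 : ℝ) ^ d) ^ p) ^ s = (((2 : ℝ) ^ d) ^ s) ^ p := by
    rw [← Real.rpow_natCast ((2 : ℝ) ^ d), ← Real.rpow_natCast (((2 : ℝ) ^ d) ^ s),
      ← Real.rpow_mul (by positivity), ← Real.rpow_mul (by positivity), mul_comm]
  have e4 : (y ^ p) ^ s = u ^ p := by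
    rw [← hys, ← Real.rpow_natCast, ← Real.rpow_natCast, ← Real.rpow_mul hy.le,
      ← Real.rpow_mul hy.le, mul_comm]
  have h4s : 0 < ((2 : ℝ) ^ d) ^ s := by positivity
  have e5 : ((2 : ℝ) ^ (d + 1)) ^ p = (u ^ p) ^ 2 * (((2 : ℝ) ^ d) ^ s) ^ p := by
    have h1 : (u ^ p) ^ 2 = (u ^ 2) ^ p := by rw [← pow_mul, ← pow_mul, mul_comm]
    rw [h1, hu2, ← mul_pow]
    congr 1
    field_simp
  rw [e1, e2, Real.div_rpow (by positivity) (by positivity),
    Real.mul_rpow (x := C₀ ^ 2 * 2 ^ d) (y := r ^ (2 * d)) (by positivity) (by positivity),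
    Real.mul_rpow (x := (2 ^ d) ^ p) (y := y ^ p) (by positivity) (by positivity), e3, e4, e5]
  have hup : 0 < u ^ p := by positivity
  field_simp

/-- **The square function.** -/
theorem square (hd : 2 ≤ d) {q A : ℝ} (hq : 2 * ((d : ℝ) + 1) / d < q) {C₀ : ℝ} (hC₀ : 0 < C₀) :
    ∃ C : ℝ, 0 < C ∧
    ∀ (N : ℕ) (γ : ℝ → Ed d), Continuous γ → OrderLE N γ →
    ∀ r : ℝ, 0 < r → r < 1 → ∀ (m K : ℕ) (a : Fin m → Fin K → Ed d) (v : Fin m → Ed d)
    (Z : Fin m → Fin K → Ed d → ℂ),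
    (∀ i, ‖v i‖ = 1) → (∀ i j, i ≠ j → r ≤ ‖v i - v j‖) →
    (∀ i k, ∃ t, |⟪γ t - a i k, v i⟫| ≤ A / r ^ 2 ∧
      ‖(γ t - a i k) - (⟪γ t - a i k, v i⟫ : ℝ) • v i‖ ≤ A / r) →
    (∀ i k, Pk C₀ r (a i k) (v i) (Z i k)) →
    ∀ lam : Fin m → Fin K → ℝ≥0∞, (∀ j, ∑ k, lam j k = 1) →
    ∫⁻ ξ, (∑ i, ∑ k, lam i k * ‖Z i k ξ‖ₑ ^ 2) ^ (q / 2) ≤
      ENNReal.ofReal (C * (W d N r) ^ (1 / (d : ℝ)) *
        (r ^ ((d : ℝ) / 2 * (q - 2 * ((d : ℝ) + 1) / d)) *
        (r ^ d * (m : ℝ)) ^ (q / 2 - 1 / (d : ℝ)))) := by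
  have hd0 : (0 : ℝ) < d := by
    have : 0 < d := by omega
    exact_mod_cast this
  set s : ℝ := q / 2 with hs
  have hs0 : 1 + 1 / (d : ℝ) < s := by
    have : 2 * ((d : ℝ) + 1) / d = 2 * (1 + 1 / (d : ℝ)) := by field_simp
    rw [this] at hq
    rw [hs]; linarith
  have hs1 : 0 < s := by
    have : (0 : ℝ) < 1 / (d : ℝ) := by positivity
    linarith
  obtain ⟨C', hC', hT⟩ := wtubes hd (A := A)
  have h8 : (2 : ℝ) ^ (d + 1) < ((2 : ℝ) ^ d) ^ s := by
    calc (2 : ℝ) ^ (d + 1) = ((2 : ℝ) ^ d) ^ (1 + 1 / (d : ℝ)) := by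
          rw [← Real.rpow_natCast 2 d, ← Real.rpow_mul (by norm_num), ← Real.rpow_natCast]
          congr 1
          push_cast
          field_simp
      _ < _ := Real.rpow_lt_rpow_of_exponent_lt (one_lt_pow₀ (by norm_num) (by omega)) hs0
  set u : ℝ := √(2 ^ (d + 1) / ((2 : ℝ) ^ d) ^ s) with hu
  have hu0 : 0 < u := Real.sqrt_pos.2 (by positivity)
  have hu2 : u ^ 2 = 2 ^ (d + 1) / ((2 : ℝ) ^ d) ^ s := Real.sq_sqrt (by positivity)
  have hu1 : u < 1 := by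
    have h1 : u ^ 2 < 1 := by rw [hu2, div_lt_one (by positivity)]; exact h8
    nlinarith
  set y : ℝ := u ^ (1 / s) with hy
  have hy0 : 0 < y := by positivity
  have hy1 : y < 1 := Real.rpow_lt_one hu0.le hu1 (by positivity)
  have hys : y ^ s = u := by
    rw [hy, ← Real.rpow_mul hu0.le, one_div_mul_cancel hs1.ne', Real.rpow_one]
  have hy1' : 0 < 1 - y := by linarith
  have hu1' : 0 < 1 - u := by linarith
  refine ⟨((1 - y)⁻¹) ^ s * (1 - u)⁻¹ * (2 ^ (d + 1) * (C₀ ^ 2 * 2 ^ d) ^ s) *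
    C' ^ (1 / (d : ℝ)), by positivity, ?_⟩
  intro N γ hγ hN r hr hr1 m K' a v Z hv hsep hmeet hZ w hw
  have hW := one_le_W (d := d) (N := N) hr hr1
  have hW0 : 0 < W d N r := by linarith
  have htau : ∀ p, 0 < tau r p := fun p => by unfold tau; positivity
  set M : ℕ → Ed d → ℝ≥0∞ := fun p => wmult r (tau r p) a v w with hM
  have hMm : ∀ p, Measurable (M p) := fun p => wmult_meas _ _ _ _ _
  set b : ℕ → ℝ≥0∞ := fun p => ENNReal.ofReal (C₀ ^ 2 * (2 / tau r p) ^ d) with hb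
  set lam : ℕ → ℝ≥0∞ := fun p => ENNReal.ofReal (y ^ p) with hlam
  have hlam0 : ∀ p, lam p ≠ 0 := fun p => by
    simp only [hlam]
    rw [ne_eq, ENNReal.ofReal_eq_zero, not_le]
    positivity
  have hlam1 : ∀ p, lam p ≠ ∞ := fun p => ENNReal.ofReal_ne_top
  have hLam : ∑' p, lam p = ENNReal.ofReal ((1 - y)⁻¹) := by
    rw [← tsum_geometric_of_lt_one hy0.le hy1, ENNReal.ofReal_tsum_of_nonneg
      (fun p => by positivity) (summable_geometric_of_lt_one hy0.le hy1)]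
  have hU : ∑' p : ℕ, ENNReal.ofReal (u ^ p) = ENNReal.ofReal ((1 - u)⁻¹) := by
    rw [← tsum_geometric_of_lt_one hu0.le hu1, ENNReal.ofReal_tsum_of_nonneg
      (fun p => by positivity) (summable_geometric_of_lt_one hu0.le hu1)]
  set K : ℝ := (C' * W d N r) ^ (1 / (d : ℝ)) * (r ^ d * (m : ℝ) ^ (s - 1 / (d : ℝ))) with hK
  have hK0 : 0 ≤ K := by positivity
  calc ∫⁻ ξ, (∑ i, ∑ k, w i k * ‖Z i k ξ‖ₑ ^ 2) ^ s ≤ ∫⁻ ξ, (∑' p, b p * M p ξ) ^ s := by
        refine lintegral_mono fun ξ => ?_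
        exact ENNReal.rpow_le_rpow (sum_le hC₀ hr hv hZ w ξ) hs1.le
    _ ≤ ∫⁻ ξ, (∑' p, lam p) ^ s * ∑' p, (b p * M p ξ / lam p) ^ s := by
        refine lintegral_mono fun ξ => ?_
        exact pow_tsum hs1 _ _ hlam0 hlam1
    _ = (∑' p, lam p) ^ s * ∑' p, ∫⁻ ξ, (b p * M p ξ / lam p) ^ s := by
        rw [lintegral_const_mul', lintegral_tsum]
        · intro p
          exact ((((hMm p).const_mul (b p)).div_const (lam p)).pow_const s).aemeasurable
        · rw [hLam]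
          exact ENNReal.rpow_ne_top_of_nonneg hs1.le ENNReal.ofReal_ne_top
    _ = (∑' p, lam p) ^ s * ∑' p, (b p / lam p) ^ s * ∫⁻ ξ, M p ξ ^ s := by
        congr 2
        ext p
        rw [← lintegral_const_mul _ ((hMm p).pow_const s)]
        refine lintegral_congr fun ξ => ?_
        rw [← ENNReal.mul_rpow_of_nonneg _ _ hs1.le]
        congr 1
        rw [div_eq_mul_inv, div_eq_mul_inv]
        ring
    _ ≤ (∑' p, lam p) ^ s * ∑' p, ENNReal.ofReal (2 ^ (d + 1) * (C₀ ^ 2 * 2 ^ d) ^ s *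
          ((r ^ (2 * d)) ^ s / r ^ (2 * (d + 1))) * K) * ENNReal.ofReal (u ^ p) := by
        refine mul_le_mul' le_rfl (ENNReal.tsum_le_tsum fun p => ?_)
        have h1 := hT N γ hγ hN r hr hr1 m K' a v hv hsep hmeet w hw s hs0.le p
        calc (b p / lam p) ^ s * ∫⁻ ξ, M p ξ ^ s ≤ (b p / lam p) ^ s *
              (ENNReal.ofReal ((2 * tau r p) ^ (d + 1)) * ENNReal.ofReal K) := by
              gcongr
          _ = ENNReal.ofReal ((C₀ ^ 2 * (2 / tau r p) ^ d / y ^ p) ^ s) *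
              (ENNReal.ofReal ((2 * tau r p) ^ (d + 1)) * ENNReal.ofReal K) := by
              have h2 := htau p
              simp only [hb, hlam]
              rw [← ENNReal.ofReal_div_of_pos (by positivity), ENNReal.ofReal_rpow_of_pos
                (by positivity)]
          _ = ENNReal.ofReal (2 ^ (d + 1) * (C₀ ^ 2 * 2 ^ d) ^ s *
              ((r ^ (2 * d)) ^ s / r ^ (2 * (d + 1))) * K) * ENNReal.ofReal (u ^ p) := by
              have h2 := htau p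
              rw [← mul_assoc, ← ENNReal.ofReal_mul (by positivity),
                algebra hC₀ hr hu0 hy0 hu2 hys p, ← ENNReal.ofReal_mul (by positivity),
                ← ENNReal.ofReal_mul (by positivity)]
              congr 1
              ring
    _ ≤ _ := by
        rw [ENNReal.tsum_mul_left, hLam, hU, ENNReal.ofReal_rpow_of_pos (by positivity),
          ← ENNReal.ofReal_mul (by positivity), ← ENNReal.ofReal_mul (by positivity)]
        apply ENNReal.ofReal_le_ofReal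
        apply le_of_eq
        have e1 : (r ^ (2 * d)) ^ s / r ^ (2 * (d + 1)) * r ^ d =
            r ^ ((d : ℝ) / 2 * (q - 2 * ((d : ℝ) + 1) / d)) * (r ^ d) ^ (s - 1 / (d : ℝ)) := by
          rw [← Real.rpow_natCast r (2 * d), ← Real.rpow_mul hr.le, ← Real.rpow_natCast r (2 * (d + 1)),
            ← Real.rpow_natCast r d, ← Real.rpow_sub hr, ← Real.rpow_add hr, ← Real.rpow_mul hr.le,
            ← Real.rpow_add hr]
          congr 1
          rw [hs]
          push_cast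
          field_simp
          ring
        rw [hK, Real.mul_rpow hC'.le hW0.le, Real.mul_rpow (x := r ^ d) (by positivity)
          (Nat.cast_nonneg m), ← mul_assoc (r ^ ((d : ℝ) / 2 * (q - 2 * ((d : ℝ) + 1) / d))), ← e1]
        ring

end Pool.Agent.V11313.RP.ND
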