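import Pool.Agent.V11313.RP.PL
import Pool.Agent.V11313.RP.NMain

set_option autoImplicit false

/-! The Fourier transform of a Gaussian bump on the sphere, all dimensions. -/

namespace Pool.Agent.V11313.RP.ND

open MeasureTheory Set Metric Complex Filter
open Pool.Agent.H789R2.FR
open scoped ENNReal NNReal RealInnerProductSpace

/-- rotation of complex vectors -/
theorem G_eq (n : ℕ) (hn : 2 ≤ n) (a b e : E n) (he : ‖e‖ = 1) (w : ℂ) (hw0 : w ≠ 0)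
    (hw : w ^ 2 = ((‖a‖ ^ 2 - ‖b‖ ^ 2 : ℝ) : ℂ) - 2 * ((⟪a, b⟫ : ℝ) : ℂ) * I) :
    ∫ x, Complex.exp (((⟪a, x⟫ : ℝ) : ℂ) - ((⟪b, x⟫ : ℝ) : ℂ) * I) ∂(sg n) = lap e w := by
  obtain ⟨u, v, a1, b1, b2, hu, hv, huv, ha, hb⟩ := exists_frame hn a b
  set α : ℂ := (a1 : ℂ) - b1 * I with hα
  set β : ℂ := -(b2 : ℂ) * I with hβ
  have hna : ‖a‖ ^ 2 = a1 ^ 2 := by
    rw [ha, norm_smul, hu, mul_one, Real.norm_eq_abs, sq_abs]
  have hnb : ‖b‖ ^ 2 = b1 ^ 2 + b2 ^ 2 := by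
    rw [hb, norm_add_sq_real, norm_smul, norm_smul, hu, hv, inner_smul_left, inner_smul_right, huv]
    simp
  have hab : ⟪a, b⟫ = a1 * b1 := by
    rw [ha, hb, inner_smul_left, inner_add_right, inner_smul_right, inner_smul_right, huv,
      real_inner_self_eq_norm_sq, hu]
    simp
  have hsum : α ^ 2 + β ^ 2 = w ^ 2 := by
    rw [hw, hna, hnb, hab, hα, hβ]
    push_cast
    ring_nf
    rw [Complex.I_sq]
    ring
  have hprod : (α + β * I) * (α - β * I) = w ^ 2 := by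
    rw [← hsum]
    ring_nf
    rw [Complex.I_sq]
    ring
  have hne : α + β * I ≠ 0 := by
    intro h
    rw [h, zero_mul] at hprod
    exact pow_ne_zero 2 hw0 hprod.symm
  set q : ℂ := (α + β * I) / w with hq
  have hq0 : q ≠ 0 := div_ne_zero hne hw0
  have hqi : q⁻¹ = (α - β * I) / w := by
    rw [hq, inv_div, div_eq_div_iff hne hw0]
    rw [mul_comm (α - β * I), hprod]
    ring
  set z : ℂ := -I * Complex.log q with hz
  have hez : Complex.exp (z * I) = q := by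
    have : z * I = Complex.log q := by
      rw [hz]
      linear_combination (-Complex.log q) * Complex.I_sq
    rw [this, Complex.exp_log hq0]
  have hez' : Complex.exp (-z * I) = q⁻¹ := by
    rw [neg_mul, Complex.exp_neg, hez]
  have hcos : w * Complex.cos z = α := by
    rw [Complex.cos, hez, hez', hqi, hq]
    field_simp
    ring
  have hsin : w * Complex.sin z = β := by
    rw [Complex.sin, hez, hez', hqi, hq]
    field_simp
    ring_nf
    rw [Complex.I_sq]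
    ring
  have h1 : ∫ x, Complex.exp (((⟪a, x⟫ : ℝ) : ℂ) - ((⟪b, x⟫ : ℝ) : ℂ) * I) ∂(sg n) =
      hfun w u v z := by
    rw [hfun]
    congr 1
    ext x
    congr 1
    rw [mul_add, ← mul_assoc, ← mul_assoc, hcos, hsin, ha, hb, inner_smul_left, inner_add_left,
      inner_smul_left, inner_smul_left, hα, hβ]
    push_cast
    simp
    ring
  rw [h1, hfun_const w u v e hu hv huv he z]
  rfl

/-- geometry -/
lemma geo {R ρ p h x y : ℝ} (hR : 0 < R) (hx : 0 ≤ x) (hρ : 0 ≤ ρ) (hh : 0 ≤ h)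
    (h2 : h ^ 2 = ρ ^ 2 - p ^ 2) (h3 : x ^ 2 - y ^ 2 = R ^ 2 - ρ ^ 2) (h4 : x * y = -(R * p)) :
    x ≤ R ∧ R ≤ 2 * (1 + √(x ^ 2 + y ^ 2)) * (1 + (R - x)) ^ 2 ∧
      ρ ≤ 2 * (1 + √(x ^ 2 + y ^ 2)) * (1 + (R - x)) ^ 2 ∧
      h * √R ≤ 2 * (1 + √(x ^ 2 + y ^ 2)) * (1 + (R - x)) ^ 2 := by
  have hkey : R ^ 2 * h ^ 2 = (R ^ 2 - x ^ 2) * (R ^ 2 + y ^ 2) := by
    have h5 : x ^ 2 * y ^ 2 = R ^ 2 * p ^ 2 := by
      have : (x * y) ^ 2 = (R * p) ^ 2 := by rw [h4]; ring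
      nlinarith
    have h6 : ρ ^ 2 = R ^ 2 - x ^ 2 + y ^ 2 := by linarith
    rw [h2, h6]
    nlinarith
  have hxR : x ≤ R := by
    by_contra hcon
    push Not at hcon
    have h5 : R ^ 2 < x ^ 2 := by nlinarith
    have h6 : (R ^ 2 - x ^ 2) * (R ^ 2 + y ^ 2) < 0 :=
      mul_neg_of_neg_of_pos (by linarith) (by positivity)
    have h7 : 0 ≤ R ^ 2 * h ^ 2 := by positivity
    linarith
  set W : ℝ := √(x ^ 2 + y ^ 2) with hW
  have hW0 : 0 ≤ W := Real.sqrt_nonneg _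
  have hW2 : W ^ 2 = x ^ 2 + y ^ 2 := Real.sq_sqrt (by positivity)
  have hxW : x ≤ W := Real.le_sqrt_of_sq_le (by nlinarith [sq_nonneg y])
  set u : ℝ := R - x with hu
  have hu0 : 0 ≤ u := by rw [hu]; linarith
  have hRW : R + W ≤ 2 * (1 + W) * (1 + u) := by
    have : R = x + u := by rw [hu]; ring
    nlinarith [mul_nonneg hW0 hu0]
  have hmono : 2 * (1 + W) * (1 + u) ≤ 2 * (1 + W) * (1 + u) ^ 2 := by
    have h5 : 1 + u ≤ (1 + u) ^ 2 := by nlinarith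
    exact mul_le_mul_of_nonneg_left h5 (by positivity)
  refine ⟨hxR, by linarith, ?_, ?_⟩
  · have h5 : ρ ≤ R + W := by
      have h6 : ρ ^ 2 ≤ (R + W) ^ 2 := by nlinarith [mul_nonneg hR.le hW0, sq_nonneg x]
      exact (sq_le_sq₀ hρ (by positivity)).1 h6
    linarith
  · have h5 : (h * √R) ^ 2 ≤ ((1 + u) * (R + W)) ^ 2 := by
      have h6 : (h * √R) ^ 2 = h ^ 2 * R := by rw [mul_pow, Real.sq_sqrt hR.le]
      have h7 : R * (h ^ 2 * R) ≤ R * ((1 + u) * (R + W)) ^ 2 := by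
        calc R * (h ^ 2 * R) = R ^ 2 * h ^ 2 := by ring
          _ = u * (R + x) * (R ^ 2 + y ^ 2) := by rw [hkey, hu]; ring
          _ ≤ u * (2 * R) * (R + W) ^ 2 := by
              have h8 : R ^ 2 + y ^ 2 ≤ (R + W) ^ 2 := by
                nlinarith [mul_nonneg hR.le hW0, sq_nonneg x]
              have h9 : R + x ≤ 2 * R := by linarith
              gcongr
          _ = R * ((2 * u) * (R + W) ^ 2) := by ring
          _ ≤ R * ((1 + u) ^ 2 * (R + W) ^ 2) := by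
              have h8 : 2 * u ≤ (1 + u) ^ 2 := by nlinarith [sq_nonneg u]
              gcongr
          _ = _ := by ring
      rw [h6]
      exact le_of_mul_le_mul_left h7 hR
    have h6 : h * √R ≤ (1 + u) * (R + W) := (sq_le_sq₀ (by positivity) (by positivity)).1 h5
    calc h * √R ≤ (1 + u) * (R + W) := h6
      _ ≤ (1 + u) * (2 * (1 + W) * (1 + u)) := by gcongr
      _ = _ := by ring

/-- the Gaussian bump -/
noncomputable def gb {n : ℕ} (R : ℝ) (v x : E n) : ℂ := ((Real.exp (-(R / 2) * ‖v - x‖ ^ 2) : ℝ) : ℂ)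

lemma gb_cont {n : ℕ} (R : ℝ) (v : E n) : Continuous (gb R v) := by
  unfold gb
  fun_prop

lemma gb_norm {n : ℕ} {R : ℝ} (hR : 0 ≤ R) (v x : E n) : ‖gb R v x‖ ≤ 1 := by
  rw [gb, Complex.norm_real, Real.norm_of_nonneg (Real.exp_pos _).le, Real.exp_le_one_iff]
  have : 0 ≤ R / 2 * ‖v - x‖ ^ 2 := by positivity
  linarith

lemma T_gb {n : ℕ} (R : ℝ) (v ξ : E n) (hv : ‖v‖ = 1) :
    T (gb R v) ξ = (Real.exp (-R) : ℝ) *
      ∫ x, Complex.exp (((⟪R • v, x⟫ : ℝ) : ℂ) - ((⟪ξ, x⟫ : ℝ) : ℂ) * I) ∂(sg n) := by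
  unfold T
  rw [← integral_const_mul]
  apply integral_congr_ae
  filter_upwards [sg_ae n] with x hx
  rw [gb, exp_inner_eq R v x hv hx]
  push_cast
  rw [← Complex.exp_add, ← Complex.exp_add, ← Complex.exp_add]
  congr 1
  rw [real_inner_smul_left]
  push_cast
  ring

lemma T_gb_cont {n : ℕ} {R : ℝ} (hR : 0 ≤ R) (v : E n) : Continuous (T (gb R v)) := by
  have := sg_finite n
  unfold T
  apply continuous_of_dominated (bound := fun _ => (1 : ℝ))
  · intro ξ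
    have h1 : Continuous fun w : E n => Complex.exp (-((⟪ξ, w⟫ : ℝ) : ℂ) * I) * gb R v w :=
      Continuous.mul (by fun_prop) (gb_cont R v)
    exact h1.aestronglyMeasurable
  · intro ξ
    refine Eventually.of_forall fun w => ?_
    rw [norm_mul, show -((⟪ξ, w⟫ : ℝ) : ℂ) * I = ((-⟪ξ, w⟫ : ℝ) : ℂ) * I by push_cast; ring,
      Complex.norm_exp_ofReal_mul_I, one_mul]
    exact gb_norm hR v w
  · exact integrable_const _
  · refine Eventually.of_forall fun w => ?_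
    fun_prop

/-- the bound at the frequencies with `w ≠ 0` -/
theorem gauss_good (d : ℕ) (hd : 1 ≤ d) : ∃ C : ℝ, 0 < C ∧ ∀ r : ℝ, 0 < r → ∀ v ξ : Ed d,
    ‖v‖ = 1 → ⟪v, ξ⟫ ≠ 0 → ‖T (gb (1 / r ^ 2) v) ξ‖ ^ 2 * qx r 0 v ξ ^ d ≤ (C * r ^ d) ^ 2 := by
  have hn : 2 ≤ d + 1 := by omega
  obtain ⟨e0, he0⟩ := exists_unit (d + 1) hn
  obtain ⟨C, hC, hlap⟩ := lap_bound (d + 1) hn e0 he0
  have hm : (((d + 1 : ℕ) : ℝ) - 1) / 2 = (d : ℝ) / 2 := by push_cast; ring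
  rw [hm] at hlap
  set m : ℝ := (d : ℝ) / 2 with hmd
  have hm0 : 0 ≤ m := by positivity
  refine ⟨C * (2 ^ m * (2 * (2 * m) + 1) ^ (2 * m)), by positivity, ?_⟩
  intro r hr v ξ hv hvξ
  set R : ℝ := 1 / r ^ 2 with hRdef
  have hR : 0 < R := by positivity
  set ρ : ℝ := ‖ξ‖ with hρ
  set pp : ℝ := ⟪ξ, v⟫ with hpp
  set h : ℝ := ‖ξ - pp • v‖ with hh
  have hh2 : h ^ 2 = ρ ^ 2 - pp ^ 2 := by
    rw [hh, norm_sub_sq_real, norm_smul, real_inner_smul_right, hv, Real.norm_eq_abs, mul_one, sq_abs,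
      ← hpp, ← hρ]
    ring
  set c : ℂ := ((‖R • v‖ ^ 2 - ‖ξ‖ ^ 2 : ℝ) : ℂ) - 2 * ((⟪R • v, ξ⟫ : ℝ) : ℂ) * I with hc
  have hRv : ‖R • v‖ ^ 2 = R ^ 2 := by
    rw [norm_smul, hv, mul_one, Real.norm_eq_abs, sq_abs]
  have hRξ : ⟪R • v, ξ⟫ = R * pp := by rw [real_inner_smul_left, real_inner_comm]
  obtain ⟨w, hw, hwre⟩ : ∃ w : ℂ, w ^ 2 = c ∧ 0 ≤ w.re := by
    obtain ⟨w', hw'⟩ := IsAlgClosed.exists_pow_nat_eq c (n := 2) (by norm_num)
    rcases le_total 0 w'.re with h1 | h1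
    · exact ⟨w', hw', h1⟩
    · exact ⟨-w', by rw [neg_sq]; exact hw', by rw [neg_re]; linarith⟩
  have hgen : ∀ A B : ℝ, ((A : ℂ) - 2 * (B : ℂ) * I).im = -(2 * B) ∧
      ((A : ℂ) - 2 * (B : ℂ) * I).re = A := by
    intro A B
    constructor <;> simp
  have hcim : c.im = -(2 * (R * pp)) := by
    rw [hc, (hgen _ _).1, hRξ]
  have hcre : c.re = R ^ 2 - ρ ^ 2 := by
    rw [hc, (hgen _ _).2, hRv]
  have hw0 : w ≠ 0 := by
    intro h0
    rw [h0] at hw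
    have h1 : c.im = 0 := by rw [← hw]; simp
    rw [hcim] at h1
    have h2 : R * pp = 0 := by linarith
    rcases mul_eq_zero.1 h2 with h3 | h3
    · exact hR.ne' h3
    · apply hvξ
      rw [real_inner_comm]
      exact h3
  set x : ℝ := w.re with hx
  set y : ℝ := w.im with hy
  have hxy1 : x ^ 2 - y ^ 2 = R ^ 2 - ρ ^ 2 := by
    have h1 : (w ^ 2).re = x * x - y * y := by rw [sq w, mul_re]
    rw [← hcre, ← hw, h1]
    ring
  have hxy2 : x * y = -(R * pp) := by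
    have h1 : c.im = 2 * (x * y) := by rw [← hw, sq w, mul_im]; ring
    rw [hcim] at h1
    linarith
  have hnw : ‖w‖ = √(x ^ 2 + y ^ 2) := by
    rw [Complex.norm_eq_sqrt_sq_add_sq]
  obtain ⟨g1, g2, g3, g4⟩ := geo hR hwre (norm_nonneg ξ) (norm_nonneg _) hh2 hxy1 hxy2
  rw [← hnw] at g2 g3 g4
  have hF : ‖T (gb R v) ξ‖ ≤ C * Real.exp (-(R - x)) * (1 + ‖w‖) ^ (-m) := by
    rw [T_gb R v ξ hv, G_eq (d + 1) hn (R • v) ξ e0 he0 w hw0 hw, norm_mul, Complex.norm_real,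
      Real.norm_of_nonneg (Real.exp_pos _).le]
    calc Real.exp (-R) * ‖lap e0 w‖ ≤ Real.exp (-R) * (C * Real.exp x * (1 + ‖w‖) ^ (-m)) := by
          gcongr
          exact hlap w hwre
      _ = C * (Real.exp (-R) * Real.exp x) * (1 + ‖w‖) ^ (-m) := by ring
      _ = _ := by rw [← Real.exp_add]; congr 3; ring
  have hq1 : 1 ≤ qx r 0 v ξ := le_max_left _ _
  have hsR : √R = 1 / r := by
    rw [hRdef, show 1 / r ^ 2 = (1 / r) ^ 2 by field_simp]
    exact Real.sqrt_sq (by positivity)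
  have hu0 : 0 ≤ R - x := by linarith
  have hq : R * qx r 0 v ξ ≤ 2 * (1 + ‖w‖) * (1 + (R - x)) ^ 2 := by
    unfold qx
    rw [sub_zero, ← hpp, ← hh, ← hρ, mul_max_of_nonneg _ _ hR.le, mul_max_of_nonneg _ _ hR.le]
    refine max_le (by rw [mul_one]; exact g2) (max_le ?_ ?_)
    · have : R * (ρ * r ^ 2) = ρ := by rw [hRdef]; field_simp
      rw [this]
      exact g3
    · have : R * (h * r) = h * √R := by rw [hsR, hRdef]; field_simp
      rw [this]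
      exact g4
  have hw1 : 0 < 1 + ‖w‖ := by positivity
  have hmain : ‖T (gb R v) ξ‖ * (R * qx r 0 v ξ) ^ m ≤ C * (2 ^ m * (2 * (2 * m) + 1) ^ (2 * m)) := by
    have h1 := one_add_rpow_le (2 * m) (R - x) (by positivity) hu0
    calc ‖T (gb R v) ξ‖ * (R * qx r 0 v ξ) ^ m
        ≤ (C * Real.exp (-(R - x)) * (1 + ‖w‖) ^ (-m)) *
          (2 * (1 + ‖w‖) * (1 + (R - x)) ^ 2) ^ m := by
          gcongr
      _ = C * (2 ^ m * (Real.exp (-(R - x)) * (1 + (R - x)) ^ (2 * m))) *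
          ((1 + ‖w‖) ^ (-m) * (1 + ‖w‖) ^ m) := by
          rw [Real.mul_rpow (by positivity) (by positivity), Real.mul_rpow (by norm_num)
            (by positivity), ← Real.rpow_natCast (1 + (R - x)) 2, ← Real.rpow_mul (by positivity)]
          push_cast
          ring
      _ = C * (2 ^ m * (Real.exp (-(R - x)) * (1 + (R - x)) ^ (2 * m))) := by
          rw [← Real.rpow_add hw1]
          simp
      _ ≤ C * (2 ^ m * (Real.exp (-(R - x)) * ((2 * (2 * m) + 1) ^ (2 * m) *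
            Real.exp ((R - x) / 2)))) := by gcongr
      _ = C * (2 ^ m * (2 * (2 * m) + 1) ^ (2 * m)) *
          (Real.exp (-(R - x)) * Real.exp ((R - x) / 2)) := by ring
      _ ≤ C * (2 ^ m * (2 * (2 * m) + 1) ^ (2 * m)) * 1 := by
          gcongr
          rw [← Real.exp_add, Real.exp_le_one_iff]
          linarith
      _ = _ := mul_one _
  set K : ℝ := C * (2 ^ m * (2 * (2 * m) + 1) ^ (2 * m)) with hK
  have hK0 : 0 ≤ K := by positivity
  have hsq : (‖T (gb R v) ξ‖ * (R * qx r 0 v ξ) ^ m) ^ 2 =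
      ‖T (gb R v) ξ‖ ^ 2 * qx r 0 v ξ ^ d * R ^ d := by
    have h1 : ∀ t : ℝ, 0 ≤ t → (t ^ m) ^ 2 = t ^ d := by
      intro t ht
      rw [← Real.rpow_natCast (t ^ m) 2, ← Real.rpow_mul ht, ← Real.rpow_natCast t d]
      congr 1
      rw [hmd]
      push_cast
      ring
    rw [mul_pow, h1 _ (by positivity), mul_pow]
    ring
  have h5 : ‖T (gb R v) ξ‖ ^ 2 * qx r 0 v ξ ^ d * R ^ d ≤ K ^ 2 := by
    rw [← hsq]
    exact pow_le_pow_left₀ (by positivity) hmain 2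
  have h6 : R ^ d = (r ^ (2 * d))⁻¹ := by
    rw [hRdef, one_div, inv_pow, ← pow_mul]
  rw [h6, ← div_eq_mul_inv, div_le_iff₀ (by positivity)] at h5
  calc _ ≤ K ^ 2 * r ^ (2 * d) := h5
    _ = _ := by ring

lemma qx_cont {d : ℕ} (r : ℝ) (a v : Ed d) : Continuous (qx r a v) := by
  unfold qx
  fun_prop

/-- the bound at all frequencies -/
theorem gauss_all (d : ℕ) (hd : 1 ≤ d) : ∃ C : ℝ, 0 < C ∧ ∀ r : ℝ, 0 < r → ∀ v ξ : Ed d,
    ‖v‖ = 1 → ‖T (gb (1 / r ^ 2) v) ξ‖ ^ 2 * qx r 0 v ξ ^ d ≤ (C * r ^ d) ^ 2 := by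
  obtain ⟨C, hC, H⟩ := gauss_good d hd
  refine ⟨C, hC, fun r hr v ξ hv => ?_⟩
  by_cases h0 : ⟪v, ξ⟫ = 0
  · have hcl : IsClosed {ξ : Ed d | ‖T (gb (1 / r ^ 2) v) ξ‖ ^ 2 * qx r 0 v ξ ^ d ≤
        (C * r ^ d) ^ 2} :=
      isClosed_le (((T_gb_cont (by positivity) v).norm.pow 2).mul ((qx_cont r 0 v).pow d))
        continuous_const
    have ht : Tendsto (fun k : ℕ => ξ + (1 / ((k : ℝ) + 1)) • v) atTop (nhds (ξ + (0 : ℝ) • v)) :=
      (tendsto_const_nhds).add ((tendsto_one_div_add_atTop_nhds_zero_nat (𝕜 := ℝ)).smul_const v)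
    rw [zero_smul, add_zero] at ht
    refine hcl.mem_of_tendsto ht (Eventually.of_forall fun k => ?_)
    apply H r hr v _ hv
    rw [inner_add_right, h0, zero_add, real_inner_smul_right, real_inner_self_eq_norm_sq, hv]
    have : (0 : ℝ) < 1 / ((k : ℝ) + 1) := by positivity
    simpa using this.ne'
  · exact H r hr v ξ hv h0

/-- the transform of a Gaussian packet -/
noncomputable def Zg {d : ℕ} (r : ℝ) (v a ξ : Ed d) : ℂ :=
  T (gb (1 / r ^ 2) v) ((2 * Real.pi) • (ξ - a))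

lemma Zg_meas {d : ℕ} (r : ℝ) (v a : Ed d) : Measurable (Zg r v a) :=
  ((T_gb_cont (by positivity) v).comp (by fun_prop : Continuous fun ξ : Ed d =>
    (2 * Real.pi) • (ξ - a))).measurable

theorem Zg_pk (d : ℕ) (hd : 1 ≤ d) : ∃ C : ℝ, 0 < C ∧ ∀ r : ℝ, 0 < r → ∀ v a : Ed d,
    ‖v‖ = 1 → Pk C r a v (Zg r v a) := by
  obtain ⟨C, hC, H⟩ := gauss_all d hd
  refine ⟨C, hC, fun r hr v a hv ξ => ?_⟩
  refine le_trans ?_ (H r hr v ((2 * Real.pi) • (ξ - a)) hv)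
  have h2pi : 1 ≤ 2 * Real.pi := by linarith [Real.pi_gt_three]
  have h0 : ∀ t : ℝ, 0 ≤ t → t ≤ 2 * Real.pi * t := fun t ht => by nlinarith
  unfold Zg qx
  have e1 : (2 * Real.pi) • (ξ - a) - (⟪(2 * Real.pi) • (ξ - a), v⟫ : ℝ) • v =
      (2 * Real.pi) • ((ξ - a) - (⟪ξ - a, v⟫ : ℝ) • v) := by
    rw [real_inner_smul_left, smul_sub (2 * Real.pi) (ξ - a), smul_smul]
  rw [sub_zero, e1, norm_smul, norm_smul, Real.norm_of_nonneg (by positivity : 0 ≤ 2 * Real.pi)]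
  gcongr
  · exact h0 _ (norm_nonneg _)
  · exact h0 _ (norm_nonneg _)

end Pool.Agent.V11313.RP.ND
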