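import Pool.Agent.V11313.RP.Sel

set_option autoImplicit false

/-! The square function. -/

namespace Pool.Agent.V11313.RP

open MeasureTheory Set Metric
open Pool.Agent.Y254 (mult mult_meas)
open Pool.Agent.Results.MP_5168f5_an.TubesMeetingCurve (OrderLE)
open Pool.Agent.V11313.CT (W one_le_W)
open scoped ENNReal NNReal RealInnerProductSpace

lemma sum_le {C₀ r : ℝ} (hC : 0 < C₀) (hr : 0 < r) {m K : ℕ} {a : Fin m → Fin K → E3}
    {v : Fin m → E3} (hv : ∀ i, ‖v i‖ = 1) {Z : Fin m → Fin K → E3 → ℂ}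
    (hZ : ∀ i k, Pk C₀ r (a i k) (v i) (Z i k)) (lam : Fin m → Fin K → ℝ≥0∞) (ξ : E3) :
    ∑ i, ∑ k, lam i k * ‖Z i k ξ‖ₑ ^ 2 ≤ ∑' p : ℕ, ENNReal.ofReal ((2 * C₀ / tau r p) ^ 2) *
      wmult r (tau r p) a v lam ξ := by
  calc ∑ i, ∑ k, lam i k * ‖Z i k ξ‖ₑ ^ 2 ≤ ∑ i, ∑ k, lam i k *
        ∑' p : ℕ, ENNReal.ofReal ((2 * C₀ / tau r p) ^ 2) *
        (Tb r (tau r p) (a i k) (v i)).indicator 1 ξ :=
        Finset.sum_le_sum fun i _ => Finset.sum_le_sum fun k _ =>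
          mul_le_mul' le_rfl (pk_sq hC hr (hv i) (hZ i k) ξ)
    _ = ∑' p : ℕ, ∑ i, ∑ k, lam i k * (ENNReal.ofReal ((2 * C₀ / tau r p) ^ 2) *
        (Tb r (tau r p) (a i k) (v i)).indicator 1 ξ) := by
        rw [Summable.tsum_finsetSum fun i _ => ENNReal.summable]
        refine Finset.sum_congr rfl fun i _ => ?_
        rw [Summable.tsum_finsetSum fun i _ => ENNReal.summable]
        exact Finset.sum_congr rfl fun k _ => ENNReal.tsum_mul_left.symm
    _ = _ := by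
        refine tsum_congr fun p => ?_
        rw [wmult, Finset.mul_sum]
        refine Finset.sum_congr rfl fun i _ => ?_
        rw [Finset.mul_sum]
        refine Finset.sum_congr rfl fun k _ => ?_
        ring

lemma algebra {s C₀ r : ℝ} (_hs : 0 < s) (hC : 0 < C₀) (hr : 0 < r) {u y : ℝ} (hu : 0 < u)
    (hy : 0 < y) (hu2 : u ^ 2 = 8 / (4 : ℝ) ^ s) (hys : y ^ s = u) (p : ℕ) :
    ((2 * C₀ / tau r p) ^ 2 / y ^ p) ^ s * (2 * tau r p) ^ 3 =
      8 * (4 * C₀ ^ 2) ^ s * ((r ^ 4) ^ s / r ^ 6) * u ^ p := by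
  have htau : tau r p = 2 ^ p / r ^ 2 := rfl
  have e1 : (2 * C₀ / tau r p) ^ 2 / y ^ p = (4 * C₀ ^ 2) * r ^ 4 / (4 ^ p * y ^ p) := by
    rw [htau, show (4 : ℝ) ^ p = (2 ^ p) ^ 2 by rw [← pow_mul, mul_comm, pow_mul]; norm_num]
    field_simp
    ring
  have e2 : (2 * tau r p) ^ 3 = 8 * 8 ^ p / r ^ 6 := by
    rw [htau, show (8 : ℝ) ^ p = (2 ^ p) ^ 3 by rw [← pow_mul, mul_comm, pow_mul]; norm_num]
    field_simp
    ring
  have e3 : ((4 : ℝ) ^ p) ^ s = ((4 : ℝ) ^ s) ^ p := by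
    rw [← Real.rpow_natCast, ← Real.rpow_natCast, ← Real.rpow_mul (by norm_num),
      ← Real.rpow_mul (by norm_num), mul_comm]
  have e4 : (y ^ p) ^ s = u ^ p := by
    rw [← hys, ← Real.rpow_natCast, ← Real.rpow_natCast, ← Real.rpow_mul hy.le,
      ← Real.rpow_mul hy.le, mul_comm]
  have h4s : 0 < (4 : ℝ) ^ s := by positivity
  have e5 : (8 : ℝ) ^ p = (u ^ p) ^ 2 * ((4 : ℝ) ^ s) ^ p := by
    rw [← pow_mul, mul_comm p 2, pow_mul, hu2, ← mul_pow]
    congr 1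
    field_simp
  rw [e1, e2, Real.div_rpow (by positivity) (by positivity),
    Real.mul_rpow (x := 4 * C₀ ^ 2) (y := r ^ 4) (by positivity) (by positivity),
    Real.mul_rpow (x := 4 ^ p) (y := y ^ p) (by positivity) (by positivity), e3, e4, e5]
  have hup : 0 < u ^ p := by positivity
  field_simp

/-- **The square function.** -/
theorem square {q A : ℝ} (hq : 3 < q) {C₀ : ℝ} (hC₀ : 0 < C₀) : ∃ C : ℝ, 0 < C ∧
    ∀ (N : ℕ) (γ : ℝ → E3), Continuous γ → OrderLE N γ →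
    ∀ r : ℝ, 0 < r → r < 1 → ∀ (m K : ℕ) (a : Fin m → Fin K → E3) (v : Fin m → E3)
    (Z : Fin m → Fin K → E3 → ℂ),
    (∀ i, ‖v i‖ = 1) → (∀ i j, i ≠ j → r ≤ ‖v i - v j‖) →
    (∀ i k, ∃ t, |⟪γ t - a i k, v i⟫| ≤ A / r ^ 2 ∧
      ‖(γ t - a i k) - (⟪γ t - a i k, v i⟫ : ℝ) • v i‖ ≤ A / r) →
    (∀ i k, Pk C₀ r (a i k) (v i) (Z i k)) →
    ∀ lam : Fin m → Fin K → ℝ≥0∞, (∀ j, ∑ k, lam j k = 1) →
    ∫⁻ ξ, (∑ i, ∑ k, lam i k * ‖Z i k ξ‖ₑ ^ 2) ^ (q / 2) ≤
      ENNReal.ofReal (C * (W 2 N r) ^ (1 / 2 : ℝ) * (r ^ (2 * q - 4) * (m : ℝ) ^ ((q - 1) / 2))) := by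
  set s : ℝ := q / 2 with hs
  have hs0 : 3 / 2 < s := by rw [hs]; linarith
  have hs1 : 0 < s := by linarith
  obtain ⟨C', hC', hT⟩ := wtubes (A := A)
  have h8 : (8 : ℝ) < (4 : ℝ) ^ s := by
    calc (8 : ℝ) = (4 : ℝ) ^ (3 / 2 : ℝ) := by
          rw [show (4 : ℝ) = 2 ^ (2 : ℝ) by norm_num, ← Real.rpow_mul (by norm_num)]
          norm_num
      _ < _ := Real.rpow_lt_rpow_of_exponent_lt (by norm_num) hs0
  set u : ℝ := √(8 / (4 : ℝ) ^ s) with hu
  have hu0 : 0 < u := Real.sqrt_pos.2 (by positivity)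
  have hu2 : u ^ 2 = 8 / (4 : ℝ) ^ s := Real.sq_sqrt (by positivity)
  have hu1 : u < 1 := by
    have h1 : u ^ 2 < 1 := by rw [hu2, div_lt_one (by positivity)]; exact h8
    nlinarith
  set y : ℝ := u ^ (1 / s) with hy
  have hy0 : 0 < y := by positivity
  have hy1 : y < 1 := Real.rpow_lt_one hu0.le hu1 (by positivity)
  have hys : y ^ s = u := by
    rw [hy, ← Real.rpow_mul hu0.le, one_div_mul_cancel hs1.ne', Real.rpow_one]
  have hy1' : 0 < 1 - y := by linarith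
  have hu1' : 0 < 1 - u := by linarith
  refine ⟨((1 - y)⁻¹) ^ s * (1 - u)⁻¹ * (8 * (4 * C₀ ^ 2) ^ s) * C' ^ (1 / 2 : ℝ), by positivity, ?_⟩
  intro N γ hγ hN r hr hr1 m K' a v Z hv hsep hmeet hZ w hw
  have hW := one_le_W (d := 2) (N := N) hr hr1
  have hW0 : 0 < W 2 N r := by linarith
  have htau : ∀ p, 0 < tau r p := fun p => by unfold tau; positivity
  set M : ℕ → E3 → ℝ≥0∞ := fun p => wmult r (tau r p) a v w with hM
  have hMm : ∀ p, Measurable (M p) := fun p => wmult_meas _ _ _ _ _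
  set b : ℕ → ℝ≥0∞ := fun p => ENNReal.ofReal ((2 * C₀ / tau r p) ^ 2) with hb
  set lam : ℕ → ℝ≥0∞ := fun p => ENNReal.ofReal (y ^ p) with hlam
  have hlam0 : ∀ p, lam p ≠ 0 := fun p => by
    simp only [hlam]
    rw [ne_eq, ENNReal.ofReal_eq_zero, not_le]
    positivity
  have hlam1 : ∀ p, lam p ≠ ∞ := fun p => ENNReal.ofReal_ne_top
  have hLam : ∑' p, lam p = ENNReal.ofReal ((1 - y)⁻¹) := by
    rw [← tsum_geometric_of_lt_one hy0.le hy1, ENNReal.ofReal_tsum_of_nonneg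
      (fun p => by positivity) (summable_geometric_of_lt_one hy0.le hy1)]
  have hU : ∑' p : ℕ, ENNReal.ofReal (u ^ p) = ENNReal.ofReal ((1 - u)⁻¹) := by
    rw [← tsum_geometric_of_lt_one hu0.le hu1, ENNReal.ofReal_tsum_of_nonneg
      (fun p => by positivity) (summable_geometric_of_lt_one hu0.le hu1)]
  set K : ℝ := (C' * W 2 N r) ^ (1 / 2 : ℝ) * (r ^ 2 * (m : ℝ) ^ (s - 1 / 2)) with hK
  have hK0 : 0 ≤ K := by positivity
  calc ∫⁻ ξ, (∑ i, ∑ k, w i k * ‖Z i k ξ‖ₑ ^ 2) ^ s ≤ ∫⁻ ξ, (∑' p, b p * M p ξ) ^ s := by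
        refine lintegral_mono fun ξ => ?_
        exact ENNReal.rpow_le_rpow (sum_le hC₀ hr hv hZ w ξ) hs1.le
    _ ≤ ∫⁻ ξ, (∑' p, lam p) ^ s * ∑' p, (b p * M p ξ / lam p) ^ s := by
        refine lintegral_mono fun ξ => ?_
        exact pow_tsum hs1 _ _ hlam0 hlam1
    _ = (∑' p, lam p) ^ s * ∑' p, ∫⁻ ξ, (b p * M p ξ / lam p) ^ s := by
        rw [lintegral_const_mul', lintegral_tsum]
        · intro p
          exact ((((hMm p).const_mul (b p)).div_const (lam p)).pow_const s).aemeasurable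
        · rw [hLam]
          exact ENNReal.rpow_ne_top_of_nonneg hs1.le ENNReal.ofReal_ne_top
    _ = (∑' p, lam p) ^ s * ∑' p, (b p / lam p) ^ s * ∫⁻ ξ, M p ξ ^ s := by
        congr 2
        ext p
        rw [← lintegral_const_mul _ ((hMm p).pow_const s)]
        refine lintegral_congr fun ξ => ?_
        rw [← ENNReal.mul_rpow_of_nonneg _ _ hs1.le]
        congr 1
        rw [div_eq_mul_inv, div_eq_mul_inv]
        ring
    _ ≤ (∑' p, lam p) ^ s * ∑' p, ENNReal.ofReal (8 * (4 * C₀ ^ 2) ^ s * ((r ^ 4) ^ s / r ^ 6) * K) *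
          ENNReal.ofReal (u ^ p) := by
        refine mul_le_mul' le_rfl (ENNReal.tsum_le_tsum fun p => ?_)
        have h1 := hT N γ hγ hN r hr hr1 m K' a v hv hsep hmeet w hw s hs0.le p
        calc (b p / lam p) ^ s * ∫⁻ ξ, M p ξ ^ s ≤ (b p / lam p) ^ s *
              (ENNReal.ofReal ((2 * tau r p) ^ 3) * ENNReal.ofReal K) := by
              gcongr
          _ = ENNReal.ofReal (((2 * C₀ / tau r p) ^ 2 / y ^ p) ^ s) *
              (ENNReal.ofReal ((2 * tau r p) ^ 3) * ENNReal.ofReal K) := by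
              have h2 := htau p
              simp only [hb, hlam]
              rw [← ENNReal.ofReal_div_of_pos (by positivity), ENNReal.ofReal_rpow_of_pos
                (by positivity)]
          _ = ENNReal.ofReal (8 * (4 * C₀ ^ 2) ^ s * ((r ^ 4) ^ s / r ^ 6) * K) *
              ENNReal.ofReal (u ^ p) := by
              have h2 := htau p
              rw [← mul_assoc, ← ENNReal.ofReal_mul (by positivity),
                algebra hs1 hC₀ hr hu0 hy0 hu2 hys p, ← ENNReal.ofReal_mul (by positivity),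
                ← ENNReal.ofReal_mul (by positivity)]
              congr 1
              ring
    _ ≤ _ := by
        rw [ENNReal.tsum_mul_left, hLam, hU, ENNReal.ofReal_rpow_of_pos (by positivity),
          ← ENNReal.ofReal_mul (by positivity), ← ENNReal.ofReal_mul (by positivity)]
        apply ENNReal.ofReal_le_ofReal
        apply le_of_eq
        have e1 : (r ^ 4) ^ s / r ^ 6 * r ^ 2 = r ^ (2 * q - 4) := by
          rw [← Real.rpow_natCast r 4, ← Real.rpow_mul hr.le, ← Real.rpow_natCast r 6,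
            ← Real.rpow_natCast r 2, ← Real.rpow_sub hr, ← Real.rpow_add hr]
          congr 1
          rw [hs]
          push_cast
          ring
        have e2 : s - 1 / 2 = (q - 1) / 2 := by rw [hs]; ring
        rw [hK, e2, Real.mul_rpow hC'.le hW0.le, ← e1]
        ring

end Pool.Agent.V11313.RP
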