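import Pool.Agent.V11313.RP.Gauss

set_option autoImplicit false

/-! Superpositions of Gaussian bumps. -/

namespace Pool.Agent.V11313.RP.ND

open MeasureTheory Set Metric Complex Filter
open Pool.Agent.H789R2.FR
open scoped ENNReal NNReal RealInnerProductSpace

/-- change of the direction and of the radius -/
lemma qx_comp {d : ℕ} {r B l : ℝ} (hr : 0 < r) (hB : 0 ≤ B) (hl : 1 ≤ l) {v w : Ed d}
    (hv : ‖v‖ = 1) (hw : ‖w‖ = 1) (hwv : ‖w - v‖ ≤ B * r) (ξ : Ed d) :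
    qx r 0 v ξ ≤ l * (1 + B) * qx (r / √l) 0 w ξ := by
  have hl0 : 0 < l := by linarith
  have hsl : 0 < √l := Real.sqrt_pos.2 hl0
  have hsl2 : √l ^ 2 = l := Real.sq_sqrt hl0.le
  have hsl1 : √l ≤ l := by
    have h1 : 1 ≤ √l := Real.one_le_sqrt.2 hl
    nlinarith
  set Q : ℝ := qx (r / √l) 0 w ξ with hQ
  have hQ1 : 1 ≤ Q := le_max_left _ _
  have hQ2 : ‖ξ - 0‖ * (r / √l) ^ 2 ≤ Q := (le_max_left _ _).trans (le_max_right _ _)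
  have hQ3 : ‖(ξ - 0) - (⟪ξ - 0, w⟫ : ℝ) • w‖ * (r / √l) ≤ Q :=
    (le_max_right _ _).trans (le_max_right _ _)
  rw [sub_zero] at hQ2 hQ3
  have hQ2' : ‖ξ‖ * r ^ 2 ≤ l * Q := by
    have h1 : ‖ξ‖ * r ^ 2 = l * (‖ξ‖ * (r / √l) ^ 2) := by
      rw [div_pow, hsl2]; field_simp
    rw [h1]
    gcongr
  have hQ3' : ‖ξ - (⟪ξ, w⟫ : ℝ) • w‖ * r ≤ l * Q := by
    have h1 : ‖ξ - (⟪ξ, w⟫ : ℝ) • w‖ * r = √l * (‖ξ - (⟪ξ, w⟫ : ℝ) • w‖ * (r / √l)) := by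
      field_simp
    rw [h1]
    exact mul_le_mul hsl1 hQ3 (by positivity) hl0.le
  unfold qx
  rw [sub_zero]
  have hlQ : 0 ≤ l * Q := by positivity
  refine max_le ?_ (max_le ?_ ?_)
  · nlinarith [mul_nonneg hB hlQ, mul_le_mul hl hQ1 zero_le_one hl0.le]
  · nlinarith [mul_nonneg hB hlQ]
  · have h1 := Pool.Agent.V11313.CT.proj_min (w := ξ) hv (⟪ξ, w⟫ : ℝ)
    have h2 : ‖ξ - (⟪ξ, w⟫ : ℝ) • v‖ ≤ ‖ξ - (⟪ξ, w⟫ : ℝ) • w‖ + ‖ξ‖ * (B * r) := by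
      have e : ξ - (⟪ξ, w⟫ : ℝ) • v = (ξ - (⟪ξ, w⟫ : ℝ) • w) + (⟪ξ, w⟫ : ℝ) • (w - v) := by
        rw [smul_sub]; abel
      rw [e]
      refine (norm_add_le _ _).trans ?_
      rw [norm_smul, Real.norm_eq_abs]
      have h3 : |⟪ξ, w⟫| ≤ ‖ξ‖ := by
        have := abs_real_inner_le_norm ξ w
        rwa [hw, mul_one] at this
      gcongr
    calc ‖ξ - (⟪ξ, v⟫ : ℝ) • v‖ * r ≤ (‖ξ - (⟪ξ, w⟫ : ℝ) • w‖ + ‖ξ‖ * (B * r)) * r := by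
          gcongr
          exact h1.trans h2
      _ = ‖ξ - (⟪ξ, w⟫ : ℝ) • w‖ * r + B * (‖ξ‖ * r ^ 2) := by ring
      _ ≤ l * Q + B * (l * Q) := by gcongr
      _ = _ := by ring

/-- the bound for one Gaussian -/
theorem gauss_cls (d : ℕ) (hd : 1 ≤ d) : ∃ C : ℝ, 0 < C ∧ ∀ r B l : ℝ, 0 < r → 0 ≤ B → 1 ≤ l →
    ∀ v w ξ : Ed d, ‖v‖ = 1 → ‖w‖ = 1 → ‖w - v‖ ≤ B * r →
    ‖T (gb (l / r ^ 2) w) ξ‖ ^ 2 * qx r 0 v ξ ^ d ≤ (1 + B) ^ d * (C * r ^ d) ^ 2 := by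
  obtain ⟨C, hC, H⟩ := gauss_all d hd
  refine ⟨C, hC, fun r B l hr hB hl v w ξ hv hw hwv => ?_⟩
  have hl0 : 0 < l := by linarith
  have hsl : 0 < √l := Real.sqrt_pos.2 hl0
  have hsl2 : √l ^ 2 = l := Real.sq_sqrt hl0.le
  have h1 := H (r / √l) (by positivity) w ξ hw
  have e1 : 1 / (r / √l) ^ 2 = l / r ^ 2 := by rw [div_pow, hsl2]; field_simp
  rw [e1] at h1
  have h2 := qx_comp hr hB hl hv hw hwv ξ
  have hq0 : 0 ≤ qx r 0 v ξ := zero_le_one.trans (le_max_left _ _)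
  have e2 : l ^ d * (C * (r / √l) ^ d) ^ 2 = (C * r ^ d) ^ 2 := by
    have h3 : (√l ^ d) ^ 2 = l ^ d := by rw [← pow_mul, mul_comm, pow_mul, hsl2]
    rw [div_pow, mul_pow, div_pow, h3]
    field_simp
  calc ‖T (gb (l / r ^ 2) w) ξ‖ ^ 2 * qx r 0 v ξ ^ d
      ≤ ‖T (gb (l / r ^ 2) w) ξ‖ ^ 2 * (l * (1 + B) * qx (r / √l) 0 w ξ) ^ d := by gcongr
    _ = (1 + B) ^ d * (l ^ d * (‖T (gb (l / r ^ 2) w) ξ‖ ^ 2 * qx (r / √l) 0 w ξ ^ d)) := by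
        rw [mul_pow, mul_pow]; ring
    _ ≤ (1 + B) ^ d * (l ^ d * (C * (r / √l) ^ d) ^ 2) := by gcongr
    _ = _ := by rw [e2]

/-- superpositions of Gaussians -/
def Mix {n : ℕ} (B : ℕ) (r : ℝ) (v : E n) (ν : Measure (ℝ × E n)) (h : ℝ × E n → ℂ) : Prop :=
  ν univ ≤ B ∧ Measurable h ∧ (∀ p, ‖h p‖ ≤ 1) ∧
    ∀ p, h p ≠ 0 → 1 ≤ p.1 ∧ ‖p.2‖ = 1 ∧ ‖p.2 - v‖ ≤ B * r

/-- the superposition -/
noncomputable def mx {n : ℕ} (r : ℝ) (ν : Measure (ℝ × E n)) (h : ℝ × E n → ℂ) (x : E n) : ℂ :=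
  ∫ p, h p * gb (p.1 / r ^ 2) p.2 x ∂ν

lemma mx_ker_meas {n : ℕ} (r : ℝ) {h : ℝ × E n → ℂ} (hm : Measurable h) :
    Measurable fun z : E n × (ℝ × E n) => h z.2 * gb (z.2.1 / r ^ 2) z.2.2 z.1 := by
  have h1 : Continuous fun z : E n × (ℝ × E n) => gb (z.2.1 / r ^ 2) z.2.2 z.1 := by
    unfold gb
    fun_prop
  exact (hm.comp measurable_snd).mul h1.measurable

lemma mx_ker_norm {n B : ℕ} {r : ℝ} {v : E n} {ν : Measure (ℝ × E n)} {h : ℝ × E n → ℂ}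
    (H : Mix B r v ν h) (x : E n) (p : ℝ × E n) : ‖h p * gb (p.1 / r ^ 2) p.2 x‖ ≤ 1 := by
  rcases eq_or_ne (h p) 0 with h0 | h0
  · rw [h0, zero_mul, norm_zero]
    exact zero_le_one
  · have h1 := (H.2.2.2 p h0).1
    rw [norm_mul]
    exact mul_le_one₀ (H.2.2.1 p) (norm_nonneg _) (gb_norm (by positivity) _ _)

lemma mx_meas {n B : ℕ} {r : ℝ} {v : E n} {ν : Measure (ℝ × E n)} {h : ℝ × E n → ℂ}
    (H : Mix B r v ν h) : Measurable (mx r ν h) := by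
  have : IsFiniteMeasure ν := ⟨lt_of_le_of_lt H.1 (ENNReal.natCast_lt_top B)⟩
  exact ((mx_ker_meas r H.2.1).stronglyMeasurable.integral_prod_right' (ν := ν)).measurable

lemma mx_norm {n B : ℕ} {r : ℝ} {v : E n} {ν : Measure (ℝ × E n)} {h : ℝ × E n → ℂ}
    (H : Mix B r v ν h) (x : E n) : ‖mx r ν h x‖ ≤ B := by
  have : IsFiniteMeasure ν := ⟨lt_of_le_of_lt H.1 (ENNReal.natCast_lt_top B)⟩
  have h1 : ‖mx r ν h x‖ ≤ 1 * ν.real univ :=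
    norm_integral_le_of_norm_le_const (Eventually.of_forall fun p => mx_ker_norm H x p)
  rw [one_mul] at h1
  refine h1.trans ?_
  rw [measureReal_def]
  have h2 := ENNReal.toReal_mono (ENNReal.natCast_ne_top B) H.1
  simpa using h2

/-- the transform of a superposition -/
lemma T_mx {n B : ℕ} {r : ℝ} {v : E n} {ν : Measure (ℝ × E n)} {h : ℝ × E n → ℂ}
    (H : Mix B r v ν h) (ξ : E n) : T (mx r ν h) ξ = ∫ p, h p * T (gb (p.1 / r ^ 2) p.2) ξ ∂ν := by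
  have : IsFiniteMeasure ν := ⟨lt_of_le_of_lt H.1 (ENNReal.natCast_lt_top B)⟩
  have := sg_finite n
  unfold T mx
  have hint : Integrable (Function.uncurry fun (x : E n) (p : ℝ × E n) =>
      Complex.exp (-((⟪ξ, x⟫ : ℝ) : ℂ) * I) * (h p * gb (p.1 / r ^ 2) p.2 x)) ((sg n).prod ν) := by
    refine Integrable.of_bound (C := 1) ?_ (Eventually.of_forall fun z => ?_)
    · have h1 : Continuous fun z : E n × (ℝ × E n) => Complex.exp (-((⟪ξ, z.1⟫ : ℝ) : ℂ) * I) := by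
        fun_prop
      exact (h1.measurable.mul (mx_ker_meas r H.2.1)).aestronglyMeasurable
    · simp only [Function.uncurry]
      rw [norm_mul, show -((⟪ξ, z.1⟫ : ℝ) : ℂ) * I = ((-⟪ξ, z.1⟫ : ℝ) : ℂ) * I by push_cast; ring,
        Complex.norm_exp_ofReal_mul_I, one_mul]
      exact mx_ker_norm H z.1 z.2
  have e1 : ∀ x : E n, Complex.exp (-((⟪ξ, x⟫ : ℝ) : ℂ) * I) * ∫ p, h p * gb (p.1 / r ^ 2) p.2 x ∂ν =
      ∫ p, Complex.exp (-((⟪ξ, x⟫ : ℝ) : ℂ) * I) * (h p * gb (p.1 / r ^ 2) p.2 x) ∂ν := fun x =>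
    (integral_const_mul _ _).symm
  simp only [e1]
  rw [integral_integral_swap hint]
  congr 1
  ext p
  rw [← integral_const_mul]
  congr 1
  ext x
  ring

/-- the bound for superpositions -/
theorem mx_pk (d : ℕ) (hd : 1 ≤ d) : ∃ C : ℝ, 0 < C ∧ ∀ (r : ℝ) (B : ℕ), 0 < r →
    ∀ (v ξ : Ed d) (ν : Measure (ℝ × E (d + 1))) (h : ℝ × E (d + 1) → ℂ), ‖v‖ = 1 →
    Mix B r v ν h →
    ‖T (mx r ν h) ξ‖ ^ 2 * qx r 0 v ξ ^ d ≤ (B ^ 2 * (1 + B) ^ d) * (C * r ^ d) ^ 2 := by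
  obtain ⟨C, hC, H⟩ := gauss_cls d hd
  refine ⟨C, hC, fun r B hr v ξ ν h hv hM => ?_⟩
  have : IsFiniteMeasure ν := ⟨lt_of_le_of_lt hM.1 (ENNReal.natCast_lt_top B)⟩
  have hB : (0 : ℝ) ≤ B := Nat.cast_nonneg B
  have hq1 : 1 ≤ qx r 0 v ξ := le_max_left _ _
  have hq0 : 0 < qx r 0 v ξ ^ d := by positivity
  set S : ℝ := √((1 + B) ^ d * (C * r ^ d) ^ 2 / qx r 0 v ξ ^ d) with hS
  have hS2 : S ^ 2 = (1 + B) ^ d * (C * r ^ d) ^ 2 / qx r 0 v ξ ^ d := Real.sq_sqrt (by positivity)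
  have hS0 : 0 ≤ S := Real.sqrt_nonneg _
  have h1 : ∀ p, ‖h p * T (gb (p.1 / r ^ 2) p.2) ξ‖ ≤ S := by
    intro p
    rcases eq_or_ne (h p) 0 with h0 | h0
    · rw [h0, zero_mul, norm_zero]
      exact hS0
    · obtain ⟨h2, h3, h4⟩ := hM.2.2.2 p h0
      have h5 := H r B p.1 hr hB h2 v p.2 ξ hv h3 h4
      rw [← le_div_iff₀ hq0, ← hS2] at h5
      have h6 : ‖T (gb (p.1 / r ^ 2) p.2) ξ‖ ≤ S := (sq_le_sq₀ (norm_nonneg _) hS0).1 h5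
      rw [norm_mul]
      calc ‖h p‖ * ‖T (gb (p.1 / r ^ 2) p.2) ξ‖ ≤ 1 * S :=
            mul_le_mul (hM.2.2.1 p) h6 (norm_nonneg _) zero_le_one
        _ = S := one_mul S
  have h2 : ‖T (mx r ν h) ξ‖ ≤ B * S := by
    rw [T_mx hM]
    have h3 : ‖∫ p, h p * T (gb (p.1 / r ^ 2) p.2) ξ ∂ν‖ ≤ S * ν.real univ :=
      norm_integral_le_of_norm_le_const (Eventually.of_forall h1)
    refine h3.trans ?_
    rw [mul_comm]
    gcongr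
    rw [measureReal_def]
    have h4 := ENNReal.toReal_mono (ENNReal.natCast_ne_top B) hM.1
    simpa using h4
  calc ‖T (mx r ν h) ξ‖ ^ 2 * qx r 0 v ξ ^ d ≤ (B * S) ^ 2 * qx r 0 v ξ ^ d := by gcongr
    _ = B ^ 2 * (S ^ 2 * qx r 0 v ξ ^ d) := by ring
    _ = _ := by
        rw [hS2]
        field_simp

end Pool.Agent.V11313.RP.ND
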