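import Pool.Agent.V11313.RP.Sq

set_option autoImplicit false

/-! Convex combinations of parallel tubes. -/

namespace Pool.Agent.V11313.RP

open MeasureTheory Set Metric
open Pool.Agent.Y254 (mult mult_meas)
open Pool.Agent.Results.MP_5168f5_an.TubesMeetingCurve (OrderLE)
open Pool.Agent.V11313.CT (W one_le_W)
open scoped ENNReal NNReal RealInnerProductSpace

lemma sel_prod {m K : ℕ} (g : Fin m → Fin K → ℝ≥0∞) :
    ∑ κ : Fin m → Fin K, ∏ i, g i (κ i) = ∏ i, ∑ k, g i k := by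
  rw [Finset.prod_univ_sum, Fintype.piFinset_univ]

lemma sel_marg {m K : ℕ} (lam : Fin m → Fin K → ℝ≥0∞) (hlam : ∀ j, ∑ k, lam j k = 1)
    (F : Fin m → Fin K → ℝ≥0∞) (j : Fin m) :
    ∑ κ : Fin m → Fin K, (∏ i, lam i (κ i)) * F j (κ j) = ∑ k, lam j k * F j k := by
  have h1 : ∀ κ : Fin m → Fin K, (∏ i, lam i (κ i)) * F j (κ j) =
      ∏ i, (lam i (κ i) * (if i = j then F i (κ i) else 1)) := by
    intro κ
    rw [Finset.prod_mul_distrib]
    congr 1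
    rw [Finset.prod_ite_eq' Finset.univ j fun i => F i (κ i)]
    simp
  simp only [h1]
  rw [sel_prod fun i k => lam i k * (if i = j then F i k else 1), Finset.prod_eq_single j]
  · simp
  · intro i _ hi
    simp only [if_neg hi, mul_one]
    exact hlam i
  · intro h
    exact absurd (Finset.mem_univ j) h

lemma select {m K : ℕ} (lam : Fin m → Fin K → ℝ≥0∞) (hlam : ∀ j, ∑ k, lam j k = 1)
    (F : Fin m → Fin K → ℝ≥0∞) {s : ℝ} (hs : 1 ≤ s) :
    (∑ j, ∑ k, lam j k * F j k) ^ s ≤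
      ∑ κ : Fin m → Fin K, (∏ i, lam i (κ i)) * (∑ j, F j (κ j)) ^ s := by
  have h0 : ∑ κ : Fin m → Fin K, ∏ i, lam i (κ i) = 1 := by
    rw [sel_prod]
    simp [hlam]
  have h1 := ENNReal.rpow_arith_mean_le_arith_mean_rpow Finset.univ
    (fun κ : Fin m → Fin K => ∏ i, lam i (κ i)) (fun κ => ∑ j, F j (κ j)) h0 hs
  refine le_trans (le_of_eq ?_) h1
  congr 1
  have h2 : ∑ κ : Fin m → Fin K, (∏ i, lam i (κ i)) * ∑ j, F j (κ j) =
      ∑ j, ∑ κ : Fin m → Fin K, (∏ i, lam i (κ i)) * F j (κ j) := by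
    simp only [Finset.mul_sum]
    exact Finset.sum_comm
  rw [h2]
  exact Finset.sum_congr rfl fun j _ => (sel_marg lam hlam F j).symm

/-- the weighted sum of the tubes of the length `2 τ` -/
noncomputable def wmult {m K : ℕ} (r τ : ℝ) (a : Fin m → Fin K → E3) (v : Fin m → E3)
    (lam : Fin m → Fin K → ℝ≥0∞) (ξ : E3) : ℝ≥0∞ :=
  ∑ j, ∑ k, lam j k * (Tb r τ (a j k) (v j)).indicator 1 ξ

lemma wmult_meas {m K : ℕ} (r τ : ℝ) (a : Fin m → Fin K → E3) (v : Fin m → E3)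
    (lam : Fin m → Fin K → ℝ≥0∞) : Measurable (wmult r τ a v lam) := by
  unfold wmult
  exact Finset.measurable_sum _ fun j _ => Finset.measurable_sum _ fun k _ =>
    (measurable_one.indicator (Tb_closed _ _ _ _).measurableSet).const_mul _

/-- the weighted tubes of the length `2 τ` -/
lemma wtubes {A : ℝ} : ∃ C' : ℝ, 0 < C' ∧
    ∀ (N : ℕ) (γ : ℝ → E3), Continuous γ → OrderLE N γ →
    ∀ r : ℝ, 0 < r → r < 1 → ∀ (m K : ℕ) (a : Fin m → Fin K → E3) (v : Fin m → E3),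
    (∀ i, ‖v i‖ = 1) → (∀ i j, i ≠ j → r ≤ ‖v i - v j‖) →
    (∀ i k, ∃ t, |⟪γ t - a i k, v i⟫| ≤ A / r ^ 2 ∧
      ‖(γ t - a i k) - (⟪γ t - a i k, v i⟫ : ℝ) • v i‖ ≤ A / r) →
    ∀ lam : Fin m → Fin K → ℝ≥0∞, (∀ j, ∑ k, lam j k = 1) →
    ∀ s : ℝ, 3 / 2 ≤ s → ∀ p : ℕ,
    ∫⁻ ξ, wmult r (tau r p) a v lam ξ ^ s ≤
      ENNReal.ofReal ((2 * tau r p) ^ 3) * ENNReal.ofReal ((C' * W 2 N r) ^ (1 / 2 : ℝ) *
        (r ^ 2 * (m : ℝ) ^ (s - 1 / 2))) := by
  obtain ⟨C', hC', h⟩ := tubes (A := A)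
  refine ⟨C', hC', ?_⟩
  intro N γ hγ hN r hr hr1 m K a v hv hsep hmeet lam hlam s hs p
  set B : ℝ≥0∞ := ENNReal.ofReal ((2 * tau r p) ^ 3) * ENNReal.ofReal
    ((C' * W 2 N r) ^ (1 / 2 : ℝ) * (r ^ 2 * (m : ℝ) ^ (s - 1 / 2))) with hB
  have hMm : ∀ κ : Fin m → Fin K, Measurable
      (mult (fun i => Tb r (tau r p) (a i (κ i)) (v i))) := fun κ => mult_meas fun i =>
    (Tb_closed _ _ _ _).measurableSet
  calc ∫⁻ ξ, wmult r (tau r p) a v lam ξ ^ s
      ≤ ∫⁻ ξ, ∑ κ : Fin m → Fin K, (∏ i, lam i (κ i)) *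
          mult (fun i => Tb r (tau r p) (a i (κ i)) (v i)) ξ ^ s := by
        refine lintegral_mono fun ξ => ?_
        exact select lam hlam (fun j k => (Tb r (tau r p) (a j k) (v j)).indicator 1 ξ)
          (by linarith)
    _ = ∑ κ : Fin m → Fin K, (∏ i, lam i (κ i)) *
          ∫⁻ ξ, mult (fun i => Tb r (tau r p) (a i (κ i)) (v i)) ξ ^ s := by
        rw [lintegral_finsetSum _ fun κ _ => ((hMm κ).pow_const s).const_mul _]
        refine Finset.sum_congr rfl fun κ _ => ?_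
        rw [lintegral_const_mul _ ((hMm κ).pow_const s)]
    _ ≤ ∑ κ : Fin m → Fin K, (∏ i, lam i (κ i)) * B := by
        gcongr with κ
        exact h N γ hγ hN r hr hr1 m (fun i => a i (κ i)) v hv hsep (fun i => hmeet i (κ i)) s hs p
    _ = B := by
        rw [← Finset.sum_mul, sel_prod]
        simp [hlam]

end Pool.Agent.V11313.RP
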