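import Pool.Agent.H789R2.FR.Smooth

set_option autoImplicit false

/-! The Laplace transform of the surface measure in the right half plane. -/

namespace Pool.Agent.V11313.RP.ND

open MeasureTheory Set Metric Complex Filter
open Pool.Agent.H789R2.FR
open scoped ENNReal NNReal RealInnerProductSpace

/-- the Laplace transform -/
noncomputable def lap {n : ℕ} (e : E n) (z : ℂ) : ℂ :=
  ∫ x, Complex.exp (z * ((⟪e, x⟫ : ℝ) : ℂ)) ∂(sg n)

lemma lap_diff {n : ℕ} (e : E n) (he : ‖e‖ = 1) : Differentiable ℂ (lap e) := by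
  have := sg_finite n
  intro t0
  have key : ∀ x : E n, ‖x‖ = 1 → ‖((⟪e, x⟫ : ℝ) : ℂ)‖ ≤ 1 := by
    intro x hx
    rw [Complex.norm_real, Real.norm_eq_abs]
    exact inner_abs_le e x he hx
  have hcont : ∀ z : ℂ, Continuous (fun x : E n => Complex.exp (z * ((⟪e, x⟫ : ℝ) : ℂ))) := by
    intro z
    fun_prop
  have := hasDerivAt_integral_of_dominated_loc_of_deriv_le (μ := sg n) (𝕜 := ℂ)
    (F := fun z x => Complex.exp (z * ((⟪e, x⟫ : ℝ) : ℂ)))
    (F' := fun z x => Complex.exp (z * ((⟪e, x⟫ : ℝ) : ℂ)) * ((⟪e, x⟫ : ℝ) : ℂ))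
    (x₀ := t0) (s := ball t0 1) (bound := fun _ => Real.exp (‖t0‖ + 1) * 1)
    (ball_mem_nhds t0 one_pos) ?_ ?_ ?_ ?_ ?_ ?_
  · exact this.2.differentiableAt
  · exact Eventually.of_forall fun t => (hcont t).aestronglyMeasurable
  · refine Integrable.of_bound (hcont t0).aestronglyMeasurable (Real.exp ‖t0‖) ?_
    filter_upwards [sg_ae n] with x hx
    rw [Complex.norm_exp]
    apply Real.exp_le_exp.mpr
    refine (Complex.re_le_norm _).trans ?_
    rw [norm_mul]
    exact mul_le_of_le_one_right (norm_nonneg _) (key x hx)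
  · apply Continuous.aestronglyMeasurable
    fun_prop
  · filter_upwards [sg_ae n] with x hx t ht
    rw [norm_mul, Complex.norm_exp]
    refine mul_le_mul ?_ (key x hx) (by positivity) (by positivity)
    apply Real.exp_le_exp.mpr
    refine (Complex.re_le_norm _).trans ?_
    rw [norm_mul]
    have h1 : ‖t‖ ≤ ‖t0‖ + 1 := by
      have h2 : ‖t - t0‖ < 1 := by rw [← dist_eq_norm]; exact ht
      have h3 := norm_add_le (t - t0) t0
      rw [sub_add_cancel] at h3
      linarith
    exact (mul_le_of_le_one_right (norm_nonneg _) (key x hx)).trans h1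
  · exact integrable_const _
  · filter_upwards with x t _
    have h1 : HasDerivAt (fun t : ℂ => t * ((⟪e, x⟫ : ℝ) : ℂ)) ((⟪e, x⟫ : ℝ) : ℂ) t := by
      simpa using (hasDerivAt_id t).mul_const ((⟪e, x⟫ : ℝ) : ℂ)
    exact h1.cexp

lemma lap_triv {n : ℕ} (e : E n) (he : ‖e‖ = 1) (z : ℂ) :
    ‖lap e z‖ ≤ Real.exp ‖z‖ * (sg n).real univ := by
  have := sg_finite n
  unfold lap
  calc ‖∫ x, Complex.exp (z * ((⟪e, x⟫ : ℝ) : ℂ)) ∂(sg n)‖
      ≤ ∫ _x, Real.exp ‖z‖ ∂(sg n) := by
        apply norm_integral_le_of_norm_le (integrable_const _)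
        filter_upwards [sg_ae n] with x hx
        rw [Complex.norm_exp]
        apply Real.exp_le_exp.mpr
        refine (Complex.re_le_norm _).trans ?_
        rw [norm_mul, Complex.norm_real, Real.norm_eq_abs]
        exact mul_le_of_le_one_right (norm_nonneg _) (inner_abs_le e x he hx)
    _ = _ := by rw [integral_const, smul_eq_mul, mul_comm]

/-- **Bound in the right half plane.** -/
theorem lap_bound (n : ℕ) (hn : 2 ≤ n) (e : E n) (he : ‖e‖ = 1) : ∃ C : ℝ, 0 < C ∧
    ∀ z : ℂ, 0 ≤ z.re → ‖lap e z‖ ≤ C * Real.exp z.re * (1 + ‖z‖) ^ (-(((n : ℝ) - 1) / 2)) := by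
  have := sg_finite n
  obtain ⟨C1, hC1, hD⟩ := D_upper' n hn
  obtain ⟨C2, hC2, hdec⟩ := decay n hn
  set m : ℝ := ((n : ℝ) - 1) / 2 with hm
  have hm0 : 0 ≤ m := by
    have : (2 : ℝ) ≤ n := by exact_mod_cast hn
    simp only [hm]; linarith
  have hm' : -((n : ℝ) - 1) / 2 = -m := by rw [hm]; ring
  rw [hm'] at hdec
  set t : ℝ := (sg n).real univ with ht
  have ht0 : 0 ≤ t := measureReal_nonneg
  set f : ℂ → ℂ := fun z => (1 + z) ^ (m : ℂ) * (Complex.exp (-z) * lap e z) with hf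
  set C3 : ℝ := 2 ^ m * (C1 + C2 + t) with hC3
  have hC30 : 0 < C3 := by positivity
  have hslit : ∀ z : ℂ, 0 ≤ z.re → 1 + z ∈ slitPlane := fun z hz => by
    rw [mem_slitPlane_iff]
    left
    rw [add_re, one_re]
    linarith
  have hfd : ∀ z : ℂ, 0 ≤ z.re → DifferentiableAt ℂ f z := by
    intro z hz
    have h1 : DifferentiableAt ℂ (fun z : ℂ => (1 + z) ^ (m : ℂ)) z :=
      ((differentiableAt_id.const_add 1).cpow_const (hslit z hz))
    have h2 : DifferentiableAt ℂ (fun z : ℂ => Complex.exp (-z) * lap e z) z :=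
      (differentiableAt_id.neg.cexp).mul (lap_diff e he z)
    exact h1.mul h2
  have hclos : closure {z : ℂ | 0 < z.re} ⊆ {z : ℂ | 0 ≤ z.re} :=
    closure_minimal (fun z hz => by
      have h1 : 0 < z.re := hz
      show 0 ≤ z.re
      exact h1.le) (isClosed_le continuous_const Complex.continuous_re)
  have hd : DiffContOnCl ℂ f {z | 0 < z.re} :=
    ⟨fun z hz => (hfd z (le_of_lt hz)).differentiableWithinAt,
      fun z hz => (hfd z (hclos hz)).continuousAt.continuousWithinAt⟩
  have hcp : ∀ z : ℂ, 0 ≤ z.re → ‖(1 + z) ^ (m : ℂ)‖ = ‖1 + z‖ ^ m := by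
    intro z hz
    rw [Complex.norm_cpow_of_ne_zero (slitPlane_ne_zero (hslit z hz))]
    simp
  have hnf : ∀ z : ℂ, 0 ≤ z.re → ‖f z‖ = ‖1 + z‖ ^ m * (Real.exp (-z.re) * ‖lap e z‖) := by
    intro z hz
    simp only [hf]
    rw [norm_mul, norm_mul, hcp z hz, Complex.norm_exp, neg_re]
  have hexp : ∃ c < (2 : ℝ), ∃ B, f =O[Bornology.cobounded ℂ ⊓ 𝓟 {z : ℂ | 0 < z.re}]
      fun z => Real.exp (B * ‖z‖ ^ c) := by
    refine ⟨1, by norm_num, m + 1, ?_⟩
    apply Asymptotics.IsBigO.of_bound t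
    rw [eventually_inf_principal]
    refine Eventually.of_forall fun z hz => ?_
    have hz0 : 0 < z.re := hz
    rw [hnf z hz0.le, Real.norm_of_nonneg (Real.exp_pos _).le, Real.rpow_one]
    have h1 : ‖1 + z‖ ^ m ≤ Real.exp (m * ‖z‖) := by
      have h2 : ‖1 + z‖ ≤ Real.exp ‖z‖ := by
        have h3 := norm_add_le (1 : ℂ) z
        rw [norm_one] at h3
        linarith [Real.add_one_le_exp ‖z‖]
      calc ‖1 + z‖ ^ m ≤ (Real.exp ‖z‖) ^ m := Real.rpow_le_rpow (norm_nonneg _) h2 hm0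
        _ = _ := by rw [← Real.exp_mul, mul_comm]
    calc ‖1 + z‖ ^ m * (Real.exp (-z.re) * ‖lap e z‖)
        ≤ Real.exp (m * ‖z‖) * (1 * (Real.exp ‖z‖ * t)) := by
          gcongr
          · exact Real.exp_le_one_iff.2 (by linarith)
          · exact lap_triv e he z
      _ = t * Real.exp ((m + 1) * ‖z‖) := by
          rw [add_mul, one_mul, Real.exp_add]
          ring
  have hre : IsBoundedUnder (· ≤ ·) atTop fun x : ℝ => ‖f x‖ := by
    refine ⟨C1, ?_⟩
    rw [eventually_map]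
    filter_upwards [eventually_ge_atTop 0] with x hx
    rw [hnf _ (by simpa using hx), ofReal_re]
    have h1 : ‖lap e (x : ℂ)‖ ≤ Real.exp x * D x e := by
      rw [← integral_exp_eq x e he]
      unfold lap
      refine (norm_integral_le_integral_norm _).trans (le_of_eq ?_)
      congr 1
      ext w
      rw [Complex.norm_exp]
      congr 1
      simp
    have h2 : ‖(1 : ℂ) + x‖ = 1 + x := by
      rw [show (1 : ℂ) + x = ((1 + x : ℝ) : ℂ) by push_cast; ring, Complex.norm_real,
        Real.norm_of_nonneg (by linarith)]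
    rw [h2]
    calc (1 + x) ^ m * (Real.exp (-x) * ‖lap e (x : ℂ)‖)
        ≤ (1 + x) ^ m * (Real.exp (-x) * (Real.exp x * (C1 * (1 + x) ^ (-m)))) := by
          gcongr
          exact h1.trans (by gcongr; exact hD x hx e he)
      _ = ((1 + x) ^ m * (1 + x) ^ (-m)) * (Real.exp (-x) * Real.exp x) * C1 := by ring
      _ = C1 := by
          rw [← Real.rpow_add (by linarith), ← Real.exp_add]
          simp
  have him : ∀ x : ℝ, ‖f (x * I)‖ ≤ C3 := by
    intro x
    have h0 : ((x : ℂ) * I).re = 0 := by simp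
    rw [hnf _ (by rw [h0]), h0]
    simp only [neg_zero, Real.exp_zero, one_mul]
    have h1 : ‖(1 : ℂ) + x * I‖ ≤ 1 + |x| := by
      refine (norm_add_le _ _).trans ?_
      rw [norm_one, norm_mul, Complex.norm_real, Complex.norm_I, mul_one, Real.norm_eq_abs]
    have h2 : lap e (x * I) = T (fun _ : E n => (1 : ℂ)) ((-x) • e) := by
      unfold lap T
      congr 1
      ext w
      rw [mul_one, real_inner_smul_left]
      congr 1
      push_cast
      ring
    rcases le_or_gt 1 |x| with h3 | h3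
    · have hx0 : x ≠ 0 := by
        intro h
        rw [h, abs_zero] at h3
        linarith
      have h4 := hdec ((-x) • e) (smul_ne_zero (neg_ne_zero.2 hx0) (by
        intro h
        rw [h, norm_zero] at he
        exact zero_ne_one he))
      rw [norm_smul, he, mul_one, norm_neg, Real.norm_eq_abs, ← h2] at h4
      calc ‖(1 : ℂ) + x * I‖ ^ m * ‖lap e (x * I)‖ ≤ (2 * |x|) ^ m * (C2 * |x| ^ (-m)) := by
            gcongr
            linarith
        _ = 2 ^ m * C2 * (|x| ^ m * |x| ^ (-m)) := by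
            rw [Real.mul_rpow (by norm_num) (abs_nonneg _)]
            ring
        _ = 2 ^ m * C2 := by
            rw [← Real.rpow_add (by linarith)]
            simp
        _ ≤ C3 := by
            rw [hC3]
            gcongr
            linarith
    · have h5 : ‖lap e (x * I)‖ ≤ t := by
        unfold lap
        calc ‖∫ w, Complex.exp (x * I * ((⟪e, w⟫ : ℝ) : ℂ)) ∂(sg n)‖
            ≤ ∫ _w, (1 : ℝ) ∂(sg n) := by
              apply norm_integral_le_of_norm_le (integrable_const _)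
              refine Filter.Eventually.of_forall fun w => ?_
              rw [show (x : ℂ) * I * ((⟪e, w⟫ : ℝ) : ℂ) = ((x * ⟪e, w⟫ : ℝ) : ℂ) * I by
                push_cast; ring, Complex.norm_exp_ofReal_mul_I]
          _ = t := by simp [ht]
      calc ‖(1 : ℂ) + x * I‖ ^ m * ‖lap e (x * I)‖ ≤ 2 ^ m * t := by
            gcongr
            linarith
        _ ≤ C3 := by
            rw [hC3]
            gcongr
            linarith
  refine ⟨C3 * 2 ^ m, by positivity, fun z hz => ?_⟩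
  have h1 := PhragmenLindelof.right_half_plane_of_bounded_on_real hd hexp hre him hz
  rw [hnf z hz] at h1
  have h2 : 1 + ‖z‖ ≤ 2 * ‖1 + z‖ := by
    have h3 : 1 + ‖z‖ ^ 2 ≤ ‖1 + z‖ ^ 2 := by
      rw [← Complex.normSq_eq_norm_sq, ← Complex.normSq_eq_norm_sq, Complex.normSq_apply,
        Complex.normSq_apply]
      simp only [add_re, add_im, one_re, one_im]
      nlinarith
    nlinarith [norm_nonneg z, norm_nonneg (1 + z), sq_nonneg (‖z‖ - 1)]
  have hz1 : 0 < 1 + ‖z‖ := by positivity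
  have h4 : (1 + ‖z‖) ^ m ≤ 2 ^ m * ‖1 + z‖ ^ m := by
    rw [← Real.mul_rpow (by norm_num) (norm_nonneg _)]
    exact Real.rpow_le_rpow hz1.le h2 hm0
  have h5 : (1 + ‖z‖) ^ m * (Real.exp (-z.re) * ‖lap e z‖) ≤ C3 * 2 ^ m := by
    calc (1 + ‖z‖) ^ m * (Real.exp (-z.re) * ‖lap e z‖)
        ≤ (2 ^ m * ‖1 + z‖ ^ m) * (Real.exp (-z.re) * ‖lap e z‖) := by gcongr
      _ = 2 ^ m * (‖1 + z‖ ^ m * (Real.exp (-z.re) * ‖lap e z‖)) := by ring
      _ ≤ 2 ^ m * C3 := by gcongr
      _ = _ := by ring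
  have h6 : 0 < (1 + ‖z‖) ^ m := by positivity
  have h7 : ‖lap e z‖ = (1 + ‖z‖) ^ m * (Real.exp (-z.re) * ‖lap e z‖) *
      (Real.exp z.re * (1 + ‖z‖) ^ (-m)) := by
    rw [Real.rpow_neg hz1.le]
    have : Real.exp (-z.re) * Real.exp z.re = 1 := by rw [← Real.exp_add]; simp
    field_simp
    rw [mul_assoc, this, mul_one]
  rw [h7]
  calc _ ≤ C3 * 2 ^ m * (Real.exp z.re * (1 + ‖z‖) ^ (-m)) := by gcongr
    _ = _ := by ring

end Pool.Agent.V11313.RP.ND
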