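import Pool.Agent.V11313.CT.Curve
import Pool.Agent.H789R2.FR.Defs

set_option autoImplicit false

/-! Sums over tubes of all lengths. -/

namespace Pool.Agent.V11313.RP

open MeasureTheory Set Metric
open Pool.Agent.Y254 (mult mult_meas)
open Pool.Agent.Results.MP_5168f5_an.TubesMeetingCurve (OrderLE)
open Pool.Agent.V11313.CT (Near W one_le_W curve_all)
open scoped ENNReal NNReal RealInnerProductSpace

/-- `ℝ³` -/
abbrev E3 : Type := EuclideanSpace ℝ (Fin 3)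

/-- the lengths -/
noncomputable def tau (r : ℝ) (p : ℕ) : ℝ := 2 ^ p / r ^ 2

/-- the tube of length `2 τ` and radius `r τ` -/
def Tb (r τ : ℝ) (a v : E3) : Set E3 :=
  {ξ | |⟪ξ - a, v⟫| ≤ τ ∧ ‖(ξ - a) - (⟪ξ - a, v⟫ : ℝ) • v‖ ≤ r * τ}

lemma Tb_closed (r τ : ℝ) (a v : E3) : IsClosed (Tb r τ a v) := by
  have h1 : Continuous fun ξ : E3 => |(⟪ξ - a, v⟫ : ℝ)| := by fun_prop
  have h2 : Continuous fun ξ : E3 => ‖(ξ - a) - (⟪ξ - a, v⟫ : ℝ) • v‖ := by fun_prop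
  exact (isClosed_le h1 continuous_const).inter (isClosed_le h2 continuous_const)

/-- the bounds at a point -/
structure Pk (C₀ r : ℝ) (a v : E3) (Z : E3 → ℂ) : Prop where
  fa : ∀ ξ, ‖Z ξ‖ ≤ C₀ * r ^ 2
  fb : ∀ ξ, ‖ξ - a‖ * ‖Z ξ‖ ≤ C₀
  fc : ∀ ξ, ‖(ξ - a) - (⟪ξ - a, v⟫ : ℝ) • v‖ * ‖Z ξ‖ ≤ C₀ * r

lemma pk_sq {C₀ r : ℝ} (hC : 0 < C₀) (hr : 0 < r) {a v : E3} (hv : ‖v‖ = 1) {Z : E3 → ℂ}
    (hZ : Pk C₀ r a v Z) (ξ : E3) :
    ‖Z ξ‖ₑ ^ 2 ≤ ∑' p : ℕ, ENNReal.ofReal ((2 * C₀ / tau r p) ^ 2) *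
      (Tb r (tau r p) a v).indicator 1 ξ := by
  set h : ℝ := ‖(ξ - a) - (⟪ξ - a, v⟫ : ℝ) • v‖ with hh
  set x : ℝ := max 1 (max (‖ξ - a‖ * r ^ 2) (h * r)) with hx
  have hx1 : 1 ≤ x := le_max_left _ _
  have hx0 : 0 < x := by linarith
  have hF0 : 0 ≤ ‖Z ξ‖ := norm_nonneg _
  have hr2 : 0 < r ^ 2 := by positivity
  have hFx : ‖Z ξ‖ * x ≤ C₀ * r ^ 2 := by
    rcases max_choice 1 (max (‖ξ - a‖ * r ^ 2) (h * r)) with h1 | h1
    · rw [hx, h1, mul_one]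
      exact hZ.fa ξ
    · rw [hx, h1]
      rcases max_choice (‖ξ - a‖ * r ^ 2) (h * r) with h2 | h2
      · rw [h2]
        nlinarith [mul_le_mul_of_nonneg_right (hZ.fb ξ) hr2.le]
      · rw [h2]
        nlinarith [mul_le_mul_of_nonneg_right (hZ.fc ξ) hr.le]
  obtain ⟨n, hn1, hn2⟩ := exists_nat_pow_near hx1 (by norm_num : (1 : ℝ) < 2)
  have htau : tau r (n + 1) = 2 ^ (n + 1) / r ^ 2 := rfl
  have ht0 : 0 < tau r (n + 1) := by rw [htau]; positivity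
  refine le_trans ?_ (ENNReal.le_tsum (n + 1))
  have hmem : ξ ∈ Tb r (tau r (n + 1)) a v := by
    constructor
    · have h1 : |⟪ξ - a, v⟫| ≤ ‖ξ - a‖ := by
        have := abs_real_inner_le_norm (ξ - a) v
        rwa [hv, mul_one] at this
      refine h1.trans ?_
      rw [htau, le_div_iff₀ hr2]
      exact ((le_max_left _ _).trans (le_max_right _ _)).trans hn2.le
    · show h ≤ r * tau r (n + 1)
      have h1 : h * r ≤ 2 ^ (n + 1) := ((le_max_right _ _).trans (le_max_right _ _)).trans hn2.le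
      rw [htau, show r * (2 ^ (n + 1) / r ^ 2) = 2 ^ (n + 1) / r by field_simp, le_div_iff₀ hr]
      exact h1
  rw [indicator_of_mem hmem, Pi.one_apply, mul_one, ← ofReal_norm,
    ← ENNReal.ofReal_pow (norm_nonneg _)]
  apply ENNReal.ofReal_le_ofReal
  apply pow_le_pow_left₀ hF0
  have h2 : 2 * C₀ / tau r (n + 1) = C₀ * r ^ 2 / 2 ^ n := by
    rw [htau, pow_succ]; field_simp
  rw [h2, le_div_iff₀ (by positivity)]
  exact (mul_le_mul_of_nonneg_left hn1 hF0).trans hFx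

lemma pow_tsum {s : ℝ} (hs : 0 < s) (x lam : ℕ → ℝ≥0∞) (h0 : ∀ p, lam p ≠ 0)
    (h1 : ∀ p, lam p ≠ ∞) :
    (∑' p, x p) ^ s ≤ (∑' p, lam p) ^ s * ∑' p, (x p / lam p) ^ s := by
  set S : ℝ≥0∞ := (∑' p, (x p / lam p) ^ s) ^ (1 / s) with hS
  have h2 : ∀ p, x p ≤ lam p * S := by
    intro p
    have h3 : x p / lam p ≤ S := by
      have h4 : (x p / lam p) ^ s ≤ ∑' p, (x p / lam p) ^ s :=
        ENNReal.le_tsum (f := fun p => (x p / lam p) ^ s) p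
      have h5 := ENNReal.rpow_le_rpow h4 (show 0 ≤ 1 / s by positivity)
      rwa [← ENNReal.rpow_mul, mul_one_div_cancel hs.ne', ENNReal.rpow_one] at h5
    calc x p = lam p * (x p / lam p) := (ENNReal.mul_div_cancel (h0 p) (h1 p)).symm
      _ ≤ _ := by gcongr
  calc (∑' p, x p) ^ s ≤ (∑' p, lam p * S) ^ s := by
        gcongr
        exact h2 _
    _ = (∑' p, lam p) ^ s * ∑' p, (x p / lam p) ^ s := by
        rw [ENNReal.tsum_mul_right, ENNReal.mul_rpow_of_nonneg _ _ hs.le, hS, ← ENNReal.rpow_mul,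
          one_div_mul_cancel hs.ne', ENNReal.rpow_one]

lemma lint_smul {c : ℝ} (hc : 0 < c) {G : E3 → ℝ≥0∞} (hG : Measurable G) :
    ∫⁻ ξ : E3, G (c⁻¹ • ξ) = ENNReal.ofReal (c ^ 3) * ∫⁻ x, G x := by
  have hc' : c⁻¹ ≠ 0 := by positivity
  have h3 := Measure.map_addHaar_smul (volume : Measure E3) hc'
  have h4 : ∫⁻ x : E3, G x ∂(Measure.map (c⁻¹ • · : E3 → E3) volume) =
      ∫⁻ ξ : E3, G (c⁻¹ • ξ) := lintegral_map hG (measurable_const_smul _)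
  rw [← h4, h3, lintegral_smul_measure, smul_eq_mul, finrank_euclideanSpace_fin, inv_pow, inv_inv,
    abs_of_pos (by positivity)]

/-- the tubes of the length `2 τ` -/
lemma tubes {A : ℝ} : ∃ C' : ℝ, 0 < C' ∧
    ∀ (N : ℕ) (γ : ℝ → E3), Continuous γ → OrderLE N γ →
    ∀ r : ℝ, 0 < r → r < 1 → ∀ (m : ℕ) (a v : Fin m → E3), (∀ i, ‖v i‖ = 1) →
    (∀ i j, i ≠ j → r ≤ ‖v i - v j‖) →
    (∀ i, ∃ t, |⟪γ t - a i, v i⟫| ≤ A / r ^ 2 ∧
      ‖(γ t - a i) - (⟪γ t - a i, v i⟫ : ℝ) • v i‖ ≤ A / r) →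
    ∀ s : ℝ, 3 / 2 ≤ s → ∀ p : ℕ,
    ∫⁻ ξ, mult (fun i => Tb r (tau r p) (a i) (v i)) ξ ^ s ≤
      ENNReal.ofReal ((2 * tau r p) ^ 3) * ENNReal.ofReal ((C' * W 2 N r) ^ (1 / 2 : ℝ) *
        (r ^ 2 * (m : ℝ) ^ (s - 1 / 2))) := by
  obtain ⟨C', hC', h⟩ := curve_all (d := 2) le_rfl (A := max A 1) (le_max_right _ _)
  refine ⟨C', hC', ?_⟩
  intro N γ hγ hN r hr hr1 m a v hv hsep hmeet s hs p
  have htau : tau r p = 2 ^ p / r ^ 2 := rfl
  have ht1 : 1 / r ^ 2 ≤ tau r p := by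
    rw [htau]
    gcongr
    exact one_le_pow₀ (by norm_num)
  have ht0 : 0 < tau r p := lt_of_lt_of_le (by positivity) ht1
  set c : ℝ := 2 * tau r p with hc
  have hc0 : 0 < c := by positivity
  have hcr : 1 / r ^ 2 ≤ c := by rw [hc]; linarith
  have hcinv : c⁻¹ ≤ r ^ 2 := by
    rw [inv_le_comm₀ hc0 (by positivity), ← one_div]
    exact hcr
  have hγ' : Continuous fun t => c⁻¹ • γ t := by fun_prop
  have hN' : OrderLE N fun t => c⁻¹ • γ t := by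
    intro ν hν
    have h1 := hN (c⁻¹ • ν) (smul_ne_zero (by positivity) hν)
    filter_upwards [h1] with y hy
    refine le_trans (le_of_eq ?_) hy
    congr 1
    ext u
    simp only [mem_ofPred_eq]
    rw [real_inner_smul_left, real_inner_smul_right]
  have hnear : ∀ i, ∃ t, Near (max A 1) r (c⁻¹ • a i) (v i) (c⁻¹ • γ t) := by
    intro i
    obtain ⟨t, h1, h2⟩ := hmeet i
    refine ⟨t, ?_, ?_⟩
    · rw [← smul_sub, real_inner_smul_left, abs_mul, abs_of_pos (by positivity : 0 < c⁻¹)]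
      calc c⁻¹ * |⟪γ t - a i, v i⟫| ≤ r ^ 2 * (max A 1 / r ^ 2) := by
            gcongr
            exact h1.trans (by gcongr; exact le_max_left _ _)
        _ = _ := by field_simp
    · have e1 : (c⁻¹ • γ t - c⁻¹ • a i) - (⟪c⁻¹ • γ t - c⁻¹ • a i, v i⟫ : ℝ) • v i =
          c⁻¹ • ((γ t - a i) - (⟪γ t - a i, v i⟫ : ℝ) • v i) := by
        rw [← smul_sub, real_inner_smul_left, smul_sub c⁻¹ (γ t - a i), smul_smul]
      rw [e1, norm_smul, Real.norm_of_nonneg (by positivity)]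
      calc c⁻¹ * ‖(γ t - a i) - (⟪γ t - a i, v i⟫ : ℝ) • v i‖ ≤ r ^ 2 * (max A 1 / r) := by
            gcongr
            exact h2.trans (by gcongr; exact le_max_left _ _)
        _ = _ := by field_simp
  have hmain := h N (fun t => c⁻¹ • γ t) hγ' hN' r hr hr1 (Fin m) (fun i => c⁻¹ • a i) v hv hsep
    hnear s (by push_cast; linarith)
  set M : E3 → ℝ≥0∞ := mult (fun i => Pool.Agent.W46.KK.tube r (c⁻¹ • a i) (v i)) with hM
  have hMm : Measurable M := mult_meas fun i =>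
    (Pool.Agent.W46.KK.tube_isClosed _ _ _).measurableSet
  have hle : ∀ ξ, mult (fun i => Tb r (tau r p) (a i) (v i)) ξ ≤ M (c⁻¹ • ξ) := by
    intro ξ
    simp only [hM, mult]
    refine Finset.sum_le_sum fun i _ => ?_
    by_cases hξ : ξ ∈ Tb r (tau r p) (a i) (v i)
    · have h2 : c⁻¹ • ξ ∈ Pool.Agent.W46.KK.tube r (c⁻¹ • a i) (v i) := by
        obtain ⟨h3, h4⟩ := hξ
        have e2 : c⁻¹ * tau r p = 1 / 2 := by rw [hc]; field_simp
        constructor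
        · rw [← smul_sub, real_inner_smul_left, abs_mul, abs_of_pos (by positivity : 0 < c⁻¹)]
          rw [← e2]
          gcongr
        · have e1 : (c⁻¹ • ξ - c⁻¹ • a i) - (⟪c⁻¹ • ξ - c⁻¹ • a i, v i⟫ : ℝ) • v i =
              c⁻¹ • ((ξ - a i) - (⟪ξ - a i, v i⟫ : ℝ) • v i) := by
            rw [← smul_sub, real_inner_smul_left, smul_sub c⁻¹ (ξ - a i), smul_smul]
          rw [e1, norm_smul, Real.norm_of_nonneg (by positivity)]
          calc c⁻¹ * ‖(ξ - a i) - (⟪ξ - a i, v i⟫ : ℝ) • v i‖ ≤ c⁻¹ * (r * tau r p) := by gcongr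
            _ = (c⁻¹ * tau r p) * r := by ring
            _ ≤ r := by rw [e2]; linarith
      rw [indicator_of_mem hξ, indicator_of_mem h2]
      rfl
    · rw [indicator_of_notMem hξ]
      exact zero_le
  calc ∫⁻ ξ, mult (fun i => Tb r (tau r p) (a i) (v i)) ξ ^ s ≤ ∫⁻ ξ, M (c⁻¹ • ξ) ^ s := by
        refine lintegral_mono fun ξ => ?_
        exact ENNReal.rpow_le_rpow (hle ξ) (by linarith)
    _ = ENNReal.ofReal (c ^ 3) * ∫⁻ x, M x ^ s := lint_smul hc0 (hMm.pow_const s)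
    _ ≤ _ := by
        gcongr
        refine hmain.trans (le_of_eq ?_)
        rw [Fintype.card_fin]
        norm_num

end Pool.Agent.V11313.RP
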